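import Pool.Agent.H35.Tw.Rel
import Pool.Agent.H71.RW.Defs
import Pool.Agent.H53.RQ.Defs

/-!
The relations of the letters `lett y pos`, in the form of `H71.RW.Rels`.
-/

namespace Pool.Agent.H35.Tw

open Finset Pool.H53.RQ

/-- type of a letter: `true` means that the letter is an ascent after itself -/
def tpl (pos : ℕ → Bool) : ℕ → Bool
  | 0 => true
  | j + 1 => pos j

/-- the relation on all letters -/
def Rn (pos : ℕ → Bool) (a b : ℕ) : Prop := a < b ∨ (a = b ∧ tpl pos a = true)

/-- the relation on the letters `0, …, K` -/
def Rl (K : ℕ) (pos : ℕ → Bool) (a b : Fin (K + 1)) : Prop := Rn pos a b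

/-- the letter in the opposite ring -/
noncomputable def lop (K : ℕ) (y : ℕ → ℝ) (pos : ℕ → Bool) (a : Fin (K + 1)) : Opᵐᵒᵖ :=
  MulOpposite.op (lett y pos a)

lemma lett_eq_rL (y : ℕ → ℝ) (pos : ℕ → Bool) (j : ℕ) : lett y pos j = rL y pos j := by
  cases j with
  | zero => rfl
  | succ j =>
    apply LinearMap.ext
    intro f
    funext v
    change (if j + 1 ∈ v ∧ j ∉ v then f (insert j (v.erase (j + 1))) else 0)
      + (if (j ∈ v ↔ pos j = true) then y j * f v else 0)
      = (if j + 1 ∈ v ∧ j ∉ v then f (insert j (v.erase (j + 1))) else 0)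
      + (if decide (j ∈ v) = pos j then y j * f v else 0)
    congr 1
    by_cases h : j ∈ v <;> cases hp : pos j <;> simp [h]

/-- squares of the letters -/
theorem lett_zero_sq (y : ℕ → ℝ) (pos : ℕ → Bool) : lett y pos 0 * lett y pos 0 = 0 := by
  rw [lett_eq_rL]; exact rL_zero_sq y pos

theorem lett_sq (y : ℕ → ℝ) (pos : ℕ → Bool) (j : ℕ) :
    lett y pos (j + 1) * lett y pos (j + 1) = y j • lett y pos (j + 1) := by
  rw [lett_eq_rL]; exact rL_sq y pos j

theorem lett_far (y : ℕ → ℝ) (pos : ℕ → Bool) (i j : ℕ) (h : i + 2 ≤ j) :
    lett y pos i * lett y pos j = lett y pos j * lett y pos i := by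
  rw [lett_eq_rL, lett_eq_rL]; exact rL_far y pos i j h

theorem lett_dn (y : ℕ → ℝ) (pos : ℕ → Bool) (j : ℕ) :
    lett y pos (j + 1) * lett y pos (j + 2) * lett y pos (j + 1)
      = y j • (if pos j then lett y pos (j + 1) * lett y pos (j + 2)
        else lett y pos (j + 2) * lett y pos (j + 1)) := by
  rw [lett_eq_rL, lett_eq_rL]; exact rL_dn y pos j

theorem lett_up (y : ℕ → ℝ) (pos : ℕ → Bool) (j : ℕ) :
    lett y pos (j + 1) * lett y pos j * lett y pos (j + 1)
      = y j • (if pos j then lett y pos j * lett y pos (j + 1)
        else lett y pos (j + 1) * lett y pos j) := by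
  rw [lett_eq_rL, lett_eq_rL]
  cases j with
  | zero => exact rL_up_zero y pos
  | succ j => exact rL_up y pos j

/-- first family of relations, in the order of composition -/
theorem k1n (y : ℕ → ℝ) (pos : ℕ → Bool) (a b c : ℕ) (h1 : ¬ Rn pos a b) (h2 : Rn pos a c) :
    lett y pos c * (lett y pos b * lett y pos a) = lett y pos b * (lett y pos c * lett y pos a) := by
  unfold Rn at h1 h2
  have hba : b ≤ a := by
    by_contra h
    exact h1 (Or.inl (by omega))
  have hac : a ≤ c := by
    rcases h2 with h | h
    · omega
    · omega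
  rcases Nat.lt_or_ge b c with hbc | hbc
  · rcases Nat.lt_or_ge (b + 1) c with hf | hf
    · rw [← mul_assoc, ← mul_assoc, lett_far y pos b c (by omega)]
    · obtain rfl : c = b + 1 := by omega
      rcases Nat.eq_or_lt_of_le hba with rfl | hlt
      · -- a = b
        have ht : tpl pos b = false := by
          by_contra h
          exact h1 (Or.inr ⟨rfl, by simpa using h⟩)
        cases b with
        | zero => simp [tpl] at ht
        | succ j =>
          have ht' : pos j = false := ht
          rw [lett_sq, ← mul_assoc, lett_dn, ht', mul_smul_comm]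
          simp
      · -- a = c
        obtain rfl : a = b + 1 := by omega
        have ht : tpl pos (b + 1) = true := by
          rcases h2 with h | h
          · omega
          · exact h.2
        have ht' : pos b = true := ht
        rw [← mul_assoc, lett_up, ht', lett_sq, mul_smul_comm]
        simp
  · exfalso
    obtain rfl : a = b := by omega
    obtain rfl : a = c := by omega
    exact h1 h2

/-- second family of relations, in the order of composition -/
theorem k2n (y : ℕ → ℝ) (pos : ℕ → Bool) (a b c : ℕ) (h1 : Rn pos a c) (h2 : ¬ Rn pos b c)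
    (h3 : ¬ (a = 0 ∧ c = 0)) :
    lett y pos c * (lett y pos b * lett y pos a) = lett y pos c * (lett y pos a * lett y pos b) := by
  unfold Rn at h1 h2
  have hac : a ≤ c := by
    rcases h1 with h | h
    · omega
    · omega
  have hcb : c ≤ b := by
    by_contra h
    exact h2 (Or.inl (by omega))
  rcases Nat.lt_or_ge a b with hab | hab
  · rcases Nat.lt_or_ge (a + 1) b with hf | hf
    · rw [lett_far y pos a b (by omega)]
    · obtain rfl : b = a + 1 := by omega
      rcases Nat.eq_or_lt_of_le hcb with rfl | hlt
      · -- c = b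
        have ht : pos a = false := by
          by_contra h
          exact h2 (Or.inr ⟨rfl, (by simpa using h : pos a = true)⟩)
        rw [← mul_assoc, ← mul_assoc, lett_up, ht, lett_sq, smul_mul_assoc]
        simp
      · -- c = a
        obtain rfl : c = a := by omega
        have ht : tpl pos c = true := by
          rcases h1 with h | h
          · omega
          · exact h.2
        cases c with
        | zero => exact absurd ⟨rfl, rfl⟩ h3
        | succ j =>
          have ht' : pos j = true := ht
          rw [← mul_assoc, ← mul_assoc, lett_dn, ht', lett_sq, smul_mul_assoc]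
          simp
  · exfalso
    obtain rfl : a = b := by omega
    obtain rfl : a = c := by omega
    exact h2 h1

/-- the relation of the letters is as in `Sup` -/
theorem sup_Rn (pos : ℕ → Bool) : Pool.Agent.H71.RW.Sup (Rn pos) := by
  constructor
  · intro a b c h1 h2
    unfold Rn at h1 h2 ⊢
    rcases h1 with h1 | ⟨rfl, h1⟩
    · rcases h2 with h2 | ⟨rfl, h2⟩
      · left; omega
      · left; exact h1
    · exact h2
  · intro a b c h1 h2 h
    unfold Rn at h1 h2 h
    have hba : b ≤ a := by
      by_contra h'
      exact h1 (Or.inl (by omega))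
    have hcb : c ≤ b := by
      by_contra h'
      exact h2 (Or.inl (by omega))
    rcases h with h | ⟨rfl, h⟩
    · omega
    · obtain rfl : a = b := by omega
      exact h1 (Or.inr ⟨rfl, h⟩)

theorem sup_Rl (K : ℕ) (pos : ℕ → Bool) : Pool.Agent.H71.RW.Sup (Rl K pos) :=
  ⟨fun a b c => (sup_Rn pos).tr a b c, fun a b c => (sup_Rn pos).nt a b c⟩

/-- THE RELATIONS of the letters `lett y pos`, in the opposite ring. -/
theorem rels_lett (K : ℕ) (y : ℕ → ℝ) (pos : ℕ → Bool) :
    Pool.Agent.H71.RW.Rels (Rl K pos)
      (fun a : Fin (K + 1) => (MulOpposite.op (lett y pos a) : Opᵐᵒᵖ)) := by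
  constructor
  · intro a b c h1 h2
    simp only [← MulOpposite.op_mul]
    exact congrArg MulOpposite.op (k1n y pos a b c h1 h2)
  · intro a b c h1 h2
    by_cases h3 : (a : ℕ) = 0 ∧ (c : ℕ) = 0
    · right
      refine ⟨Fin.ext (h3.1.trans h3.2.symm), ?_, ?_, ?_⟩
      · intro e
        unfold Rl Rn
        rcases Nat.eq_zero_or_pos (e : ℕ) with h | h
        · right
          exact ⟨by rw [h3.1, h], by rw [h3.1]; rfl⟩
        · left
          omega
      · intro e he
        unfold Rl Rn at he
        apply Fin.ext
        rcases he with he | he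
        · omega
        · exact he.1
      · simp only [← MulOpposite.op_mul]
        rw [h3.1, lett_zero_sq]
        rfl
    · left
      simp only [← MulOpposite.op_mul]
      exact congrArg MulOpposite.op (k2n y pos a b c h1 h2 h3)

end Pool.Agent.H35.Tw
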