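import Pool.Agent.H35.Tw.Win

/-!
Two sites: third divided difference at `0, y, z, y + z`.
-/

set_option linter.unnecessarySeqFocus false

namespace Pool.Agent.H35.Tw

open Polynomial

variable {R : Type} [Field R]

lemma aeval_eig {V : Type*} [AddCommGroup V] [Module R V] (E : V →ₗ[R] V) (c : R) (v : V)
    (h : E v = c • v) (g : R[X]) : aeval E g v = g.eval c • v := by
  have hn : ∀ n : ℕ, (E ^ n) v = c ^ n • v := by
    intro n
    induction n with
    | zero => simp
    | succ n ih => rw [pow_succ', Module.End.mul_apply, ih, map_smul, h, smul_smul, pow_succ]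
  induction g using Polynomial.induction_on' with
  | add p q hp hq => simp [hp, hq, add_smul]
  | monomial n a =>
    simp only [aeval_monomial, Module.End.mul_apply, Module.algebraMap_end_apply, eval_monomial,
      hn, smul_smul]

theorem base_M (y z : R) (g : R[X]) (hy : y ≠ 0) (hz : z ≠ 0) (h1 : y - z ≠ 0)
    (h2 : y + z ≠ 0) :
    (Sys.base R).M y z g
      = (g.eval (y + z) - g.eval 0) / (y * z * (y + z))
        - (g.eval y - g.eval z) / (y * z * (y - z)) := by
  let E : ((R × R) × (R × R)) →ₗ[R] ((R × R) × (R × R)) :=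
    ext2 (0 : R →ₗ[R] R) LinearMap.id y z
  have hE : ∀ p r s t : R, E ((p, r), (s, t)) = ((0, p + y * r), (r + z * s, s + (y + z) * t)) := by
    intro p r s t
    simp only [E, ext2, ext_apply, hop_apply, LinearMap.zero_apply, LinearMap.id_apply,
      smul_eq_mul, Prod.mk_add_mk, Prod.smul_mk, add_zero, zero_add]
    refine Prod.ext (Prod.ext rfl rfl) (Prod.ext rfl ?_)
    simp only []
    ring
  let v0 : (R × R) × (R × R) := ((1, -1 / y), (1 / (y * z), -1 / (y * z * (y + z))))
  let v1 : (R × R) × (R × R) := ((0, 1), (1 / (y - z), -1 / (z * (y - z))))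
  let v2 : (R × R) × (R × R) := ((0, 0), (1, -1 / y))
  let v3 : (R × R) × (R × R) := ((0, 0), (0, 1))
  have h0 : E v0 = (0 : R) • v0 := by
    simp only [v0, hE]
    refine Prod.ext (Prod.ext ?_ ?_) (Prod.ext ?_ ?_) <;> simp <;> field_simp <;> ring
  have h1' : E v1 = y • v1 := by
    simp only [v1, hE]
    refine Prod.ext (Prod.ext ?_ ?_) (Prod.ext ?_ ?_) <;> simp <;> field_simp <;> ring
  have h2' : E v2 = z • v2 := by
    simp only [v2, hE]
    refine Prod.ext (Prod.ext ?_ ?_) (Prod.ext ?_ ?_) <;> simp <;> field_simp <;> ring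
  have h3' : E v3 = (y + z) • v3 := by
    simp only [v3, hE]
    refine Prod.ext (Prod.ext ?_ ?_) (Prod.ext ?_ ?_) <;> simp
  have hdec : (((1, 0), (0, 0)) : (R × R) × (R × R))
      = v0 + (1 / y) • v1 + (-1 / (z * (y - z))) • v2 + (1 / (y * z * (y + z))) • v3 := by
    simp only [v0, v1, v2, v3]
    refine Prod.ext (Prod.ext ?_ ?_) (Prod.ext ?_ ?_) <;> simp <;> field_simp <;> ring
  have e : (Sys.base R).M y z g = (aeval E g ((1, 0), (0, 0))).2.2 := rfl
  rw [e, hdec, map_add, map_add, map_add, map_smul, map_smul, map_smul, aeval_eig E _ v0 h0,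
    aeval_eig E _ v1 h1', aeval_eig E _ v2 h2', aeval_eig E _ v3 h3']
  simp only [v0, v1, v2, v3, Prod.snd_add, Prod.smul_snd, smul_eq_mul]
  field_simp
  ring

end Pool.Agent.H35.Tw
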