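import Mathlib

/-!
Tower of Fock spaces: one more site. `ext D A t` adds a site with node `t` on top of a module
with step operator `D` and hop operator `A`; `hop` is the hop operator of the new top site.
-/

namespace Pool.Agent.H35.Tw

open Polynomial

variable {R : Type*} [Field R]
variable {V : Type*} [AddCommGroup V] [Module R V]

/-- one more site on top, with node `t`; first component: site empty, second: site full -/
def ext (D A : V →ₗ[R] V) (t : R) : (V × V) →ₗ[R] (V × V) where
  toFun v := (D v.1, A v.1 + D v.2 + t • v.2)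
  map_add' v w := by
    ext
    · simp
    · simp only [Prod.fst_add, Prod.snd_add, map_add, smul_add]
      abel
  map_smul' c v := by
    ext
    · simp
    · simp only [Prod.smul_fst, Prod.smul_snd, map_smul, RingHom.id_apply, smul_add]
      rw [smul_comm]

/-- the particle of the top site leaves upwards -/
def hop : (V × V) →ₗ[R] (V × V) where
  toFun v := (v.2, 0)
  map_add' v w := by ext <;> simp
  map_smul' c v := by ext <;> simp

@[simp] lemma ext_apply (D A : V →ₗ[R] V) (t : R) (v : V × V) :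
    ext D A t v = (D v.1, A v.1 + D v.2 + t • v.2) := rfl

@[simp] lemma hop_apply (v : V × V) : (hop : (V × V) →ₗ[R] (V × V)) v = (v.2, 0) := rfl

/-- exchange operator of the two top sites -/
def exch (c : R) : ((V × V) × (V × V)) →ₗ[R] ((V × V) × (V × V)) where
  toFun x := ((x.1.1, x.1.2 + c • x.2.1), x.2)
  map_add' v w := by
    ext
    · simp
    · simp only [Prod.fst_add, Prod.snd_add, smul_add]
      abel
    · simp
    · simp
  map_smul' c v := by
    ext
    · simp
    · simp only [Prod.smul_fst, Prod.smul_snd, RingHom.id_apply, smul_add]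
      rw [smul_comm]
    · simp
    · simp

@[simp] lemma exch_apply (c : R) (x : (V × V) × (V × V)) :
    exch c x = ((x.1.1, x.1.2 + c • x.2.1), x.2) := rfl

/-- two sites on top -/
def ext2 (D A : V →ₗ[R] V) (a b : R) : ((V × V) × (V × V)) →ₗ[R] ((V × V) × (V × V)) :=
  ext (ext D A a) hop b

lemma exch_ext2 (D A : V →ₗ[R] V) (a b : R) :
    (exch (b - a)) ∘ₗ (ext2 D A a b) = (ext2 D A b a) ∘ₗ (exch (b - a)) := by
  apply LinearMap.ext
  rintro ⟨⟨x00, x10⟩, ⟨x01, x11⟩⟩
  simp only [LinearMap.comp_apply, ext2, ext_apply, hop_apply, exch_apply, Prod.mk_add_mk,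
    Prod.smul_mk, map_add, map_smul, zero_add, Prod.mk.injEq]
  refine ⟨⟨trivial, ?_⟩, ?_, ?_⟩ <;> module

lemma exch_hop (c : R) :
    (exch c : ((V × V) × (V × V)) →ₗ[R] ((V × V) × (V × V))) ∘ₗ hop = hop ∘ₗ exch c := by
  apply LinearMap.ext
  rintro ⟨⟨x00, x10⟩, ⟨x01, x11⟩⟩
  simp [hop_apply, exch_apply]

/-- an intertwiner passes to polynomials -/
lemma comp_aeval {W W' : Type*} [AddCommGroup W] [Module R W] [AddCommGroup W'] [Module R W']
    (T : W →ₗ[R] W') (E : W →ₗ[R] W) (E' : W' →ₗ[R] W') (h : T ∘ₗ E = E' ∘ₗ T) (g : R[X])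
    (w : W) : T (aeval E g w) = aeval E' g (T w) := by
  induction g using Polynomial.induction_on' with
  | add p q hp hq => simp [hp, hq]
  | monomial n c =>
    have hn : ∀ (n : ℕ) (w : W), T ((E ^ n) w) = (E' ^ n) (T w) := by
      intro n
      induction n with
      | zero => intro w; simp
      | succ n ih =>
        intro w
        rw [pow_succ, pow_succ, Module.End.mul_apply, Module.End.mul_apply, ih]
        have := LinearMap.congr_fun h w
        simp only [LinearMap.comp_apply] at this
        rw [this]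
    simp only [aeval_monomial, Module.End.mul_apply, Module.algebraMap_end_apply, map_smul]
    rw [hn]

/-- first component: the top site stays empty -/
lemma aeval_ext_fst (D A : V →ₗ[R] V) (t : R) (g : R[X]) (w : V × V) :
    (aeval (ext D A t) g w).1 = aeval D g w.1 := by
  have := comp_aeval (LinearMap.fst R V V) (ext D A t) D (by
    apply LinearMap.ext; intro v; simp) g w
  simpa using this

/-- the step operator plus a constant -/
def shift (D : V →ₗ[R] V) (t : R) : V →ₗ[R] V := D + t • LinearMap.id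

/-- the top site is full from the start -/
lemma aeval_ext_inr (D A : V →ₗ[R] V) (t : R) (g : R[X]) (w : V) :
    aeval (ext D A t) g (0, w) = (0, (aeval (shift D t) g : V →ₗ[R] V) w) := by
  have := comp_aeval (LinearMap.inr R V V) (shift D t) (ext D A t) (by
    apply LinearMap.ext; intro v; simp [shift]) g w
  simpa using this.symm

/-- the matrix element 00 -> 11 of the two top sites -/
noncomputable def m2 (D A : V →ₗ[R] V) (phi : V →ₗ[R] R) (u : V) (a b : R) (g : R[X]) : R :=
  phi (aeval (ext2 D A a b) g ((u, 0), (0, 0))).2.2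

lemma m2_symm (D A : V →ₗ[R] V) (phi : V →ₗ[R] R) (u : V) (a b : R) (g : R[X]) :
    m2 D A phi u a b g = m2 D A phi u b a g := by
  have h := comp_aeval (exch (b - a)) (ext2 D A a b) (ext2 D A b a) (exch_ext2 D A a b) g
    ((u, 0), (0, 0))
  have h2 : exch (b - a) (((u, 0), (0, 0)) : (V × V) × (V × V)) = ((u, 0), (0, 0)) := by simp
  rw [h2] at h
  have h3 := congrArg (fun x => phi x.2.2) h
  simpa [m2] using h3

/-- three sites on top -/
def ext3 (D A : V →ₗ[R] V) (a b c : R) :
    (((V × V) × (V × V)) × ((V × V) × (V × V))) →ₗ[R]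
      (((V × V) × (V × V)) × ((V × V) × (V × V))) :=
  ext (ext2 D A a b) hop c

lemma ext3_eq (D A : V →ₗ[R] V) (a b c : R) :
    ext3 D A a b c = ext2 (ext D A a) hop b c := rfl

/-- exchange of the two lower sites among three -/
def exch3 (c : R) : (((V × V) × (V × V)) × ((V × V) × (V × V))) →ₗ[R]
    (((V × V) × (V × V)) × ((V × V) × (V × V))) :=
  (exch c).prodMap (exch c)

lemma exch3_ext3 (D A : V →ₗ[R] V) (a b c : R) :
    (exch3 (b - a)) ∘ₗ (ext3 D A a b c) = (ext3 D A b a c) ∘ₗ (exch3 (b - a)) := by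
  apply LinearMap.ext
  rintro ⟨x, y⟩
  have hx := LinearMap.congr_fun (exch_ext2 D A a b) x
  have hy := LinearMap.congr_fun (exch_ext2 D A a b) y
  have hh := LinearMap.congr_fun (exch_hop (R := R) (V := V) (b - a)) x
  simp only [LinearMap.comp_apply] at hx hy hh
  simp only [LinearMap.comp_apply, exch3, ext3, ext_apply, LinearMap.prodMap_apply, map_add,
    map_smul, hx, hy, hh]

/-- starting state of three sites -/
def st3 (v : V × V) : (((V × V) × (V × V)) × ((V × V) × (V × V))) :=
  ((v, (0, 0)), ((0, 0), (0, 0)))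

/-- exchange of sites 2, 3: the entry 101 -/
lemma m101 (D A : V →ₗ[R] V) (phi : V →ₗ[R] R) (u : V) (a b c : R) (g : R[X]) :
    (c - b) * phi (aeval (ext3 D A a b c) g (st3 (u, 0))).2.1.2
      = m2 D A phi u a c g - m2 D A phi u a b g := by
  have h := comp_aeval (exch (c - b)) (ext2 (ext D A a) hop b c) (ext2 (ext D A a) hop c b)
    (exch_ext2 _ _ b c) g (st3 (u, 0))
  have h2 : exch (c - b) (st3 ((u, 0) : V × V)) = st3 (u, 0) := by simp [st3]
  rw [h2] at h
  have h3 := congrArg (fun x => phi x.1.2.2) h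
  have h4 : ∀ b : R, ∀ c : R, phi (aeval (ext3 D A a b c) g (st3 (u, 0))).1.2.2
      = m2 D A phi u a b g := by
    intro b c
    rw [ext3, aeval_ext_fst]
    rfl
  have h5 := h4 b c
  have h6 := h4 c b
  rw [ext3_eq] at h5 h6 ⊢
  simp only [exch_apply, Prod.snd_add, Prod.smul_snd, map_add, map_smul, smul_eq_mul] at h3
  rw [h5, h6] at h3
  linear_combination h3

/-- exchange of sites 1, 2: the entry 011 -/
lemma m011 (D A : V →ₗ[R] V) (phi : V →ₗ[R] R) (u : V) (a b c : R) (g : R[X]) :
    (b - a) * phi (aeval (ext3 D A a b c) g (st3 (u, 0))).2.2.1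
      = phi (aeval (ext3 D A b a c) g (st3 (u, 0))).2.1.2
        - phi (aeval (ext3 D A a b c) g (st3 (u, 0))).2.1.2 := by
  have h := comp_aeval (exch3 (b - a)) (ext3 D A a b c) (ext3 D A b a c)
    (exch3_ext3 D A a b c) g (st3 (u, 0))
  have h2 : exch3 (b - a) (st3 ((u, 0) : V × V)) = st3 (u, 0) := by simp [st3, exch3]
  rw [h2] at h
  have h3 := congrArg (fun x => phi x.2.1.2) h
  simp only [exch3, LinearMap.prodMap_apply, exch_apply, map_add, map_smul, smul_eq_mul] at h3
  linear_combination h3

/-- step (A): the lowest of the three sites is empty at the start and at the end -/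
theorem stepA (D A : V →ₗ[R] V) (phi : V →ₗ[R] R) (u : V) (a b c : R) (g : R[X])
    (hab : a ≠ b) (hac : a ≠ c) (hbc : b ≠ c) :
    phi (aeval (ext3 D A a b c) g (st3 (u, 0))).2.2.1
      = m2 D A phi u b c g / ((a - b) * (a - c)) + m2 D A phi u a c g / ((b - a) * (b - c))
        + m2 D A phi u a b g / ((c - a) * (c - b)) := by
  have h1 := m011 D A phi u a b c g
  have h2 := m101 D A phi u a b c g
  have h3 := m101 D A phi u b a c g
  have e1 : m2 D A phi u b a g = m2 D A phi u a b g := m2_symm _ _ _ _ _ _ _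
  rw [e1] at h3
  have n1 : a - b ≠ 0 := sub_ne_zero.2 hab
  have n2 : a - c ≠ 0 := sub_ne_zero.2 hac
  have n3 : b - c ≠ 0 := sub_ne_zero.2 hbc
  have n4 : b - a ≠ 0 := sub_ne_zero.2 hab.symm
  have n5 : c - a ≠ 0 := sub_ne_zero.2 hac.symm
  have n6 : c - b ≠ 0 := sub_ne_zero.2 hbc.symm
  have h2' : phi (aeval (ext3 D A a b c) g (st3 (u, 0))).2.1.2
      = (m2 D A phi u a c g - m2 D A phi u a b g) / (c - b) := by
    rw [eq_div_iff n6]; linear_combination h2
  have h3' : phi (aeval (ext3 D A b a c) g (st3 (u, 0))).2.1.2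
      = (m2 D A phi u b c g - m2 D A phi u a b g) / (c - a) := by
    rw [eq_div_iff n5]; linear_combination h3
  have h1' : phi (aeval (ext3 D A a b c) g (st3 (u, 0))).2.2.1
      = (phi (aeval (ext3 D A b a c) g (st3 (u, 0))).2.1.2
        - phi (aeval (ext3 D A a b c) g (st3 (u, 0))).2.1.2) / (b - a) := by
    rw [eq_div_iff n4]; linear_combination h1
  rw [h1', h2', h3']
  field_simp
  ring

lemma aeval_shift (E : V →ₗ[R] V) (t : R) (g : R[X]) :
    aeval (shift E t) g = aeval E (g.comp (X + C t)) := by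
  rw [aeval_comp]
  congr 1
  simp [shift, Algebra.algebraMap_eq_smul_one]
  rfl

/-- three sites, only the top one full -/
def st001 (u : V) : (((V × V) × (V × V)) × ((V × V) × (V × V))) :=
  (((0, 0), (0, 0)), ((u, 0), (0, 0)))

/-- three sites, only the middle one full -/
def st010 (u : V) : (((V × V) × (V × V)) × ((V × V) × (V × V))) :=
  (((0, 0), (u, 0)), ((0, 0), (0, 0)))

lemma n001 (D A : V →ₗ[R] V) (phi : V →ₗ[R] R) (u : V) (a b c : R) (g : R[X]) :
    phi (aeval (ext3 D A a b c) g (st001 u)).2.2.2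
      = m2 D A phi u a b (g.comp (X + C c)) := by
  have h := aeval_ext_inr (ext2 D A a b) hop c g ((u, 0), (0, 0))
  have h0 : ((((0, 0), (0, 0)), ((u, 0), (0, 0))) :
      ((V × V) × (V × V)) × ((V × V) × (V × V))) = (0, ((u, 0), (0, 0))) := rfl
  rw [st001, h0, ext3, h, aeval_shift]
  rfl

lemma n010 (D A : V →ₗ[R] V) (phi : V →ₗ[R] R) (u : V) (a b c : R) (g : R[X]) :
    (b - c) * phi (aeval (ext3 D A a b c) g (st010 u)).2.2.2
      = m2 D A phi u a c (g.comp (X + C b)) - m2 D A phi u a b (g.comp (X + C c)) := by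
  have h := comp_aeval (exch (b - c)) (ext2 (ext D A a) hop c b) (ext2 (ext D A a) hop b c)
    (exch_ext2 _ _ c b) g (st001 u)
  have h2 : exch (b - c) (st001 u) = st001 u + (b - c) • st010 u := by simp [st001, st010]
  rw [h2] at h
  have h3 := congrArg (fun x => phi x.2.2.2) h
  have h5 := n001 D A phi u a c b g
  have h6 := n001 D A phi u a b c g
  rw [ext3_eq] at h5 h6 ⊢
  simp only [exch_apply, Prod.snd_add, Prod.smul_snd, map_add, map_smul, smul_eq_mul] at h3
  rw [h5, h6] at h3
  linear_combination -h3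

lemma n100 (D A : V →ₗ[R] V) (phi : V →ₗ[R] R) (u : V) (a b c : R) (g : R[X]) :
    (a - b) * phi (aeval (ext3 D A a b c) g (st3 (0, u))).2.2.2
      = phi (aeval (ext3 D A b a c) g (st010 u)).2.2.2
        - phi (aeval (ext3 D A a b c) g (st010 u)).2.2.2 := by
  have h := comp_aeval (exch3 (a - b)) (ext3 D A b a c) (ext3 D A a b c)
    (exch3_ext3 D A b a c) g (st010 u)
  have h2 : exch3 (a - b) (st010 u) = st010 u + (a - b) • st3 (0, u) := by
    simp [st3, st010, exch3]
  rw [h2] at h
  have h3 := congrArg (fun x => phi x.2.2.2) h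
  simp only [exch3, LinearMap.prodMap_apply, exch_apply, Prod.snd_add, Prod.smul_snd, map_add,
    map_smul, smul_eq_mul] at h3
  linear_combination -h3

/-- step (B): the lowest of the three sites is full at the start and at the end -/
theorem stepB (D A : V →ₗ[R] V) (phi : V →ₗ[R] R) (u : V) (a b c : R) (g : R[X])
    (hab : a ≠ b) (hac : a ≠ c) (hbc : b ≠ c) :
    phi (aeval (ext3 D A a b c) g (st3 (0, u))).2.2.2
      = m2 D A phi u b c (g.comp (X + C a)) / ((a - b) * (a - c))
        + m2 D A phi u a c (g.comp (X + C b)) / ((b - a) * (b - c))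
        + m2 D A phi u a b (g.comp (X + C c)) / ((c - a) * (c - b)) := by
  have h1 := n100 D A phi u a b c g
  have h2 := n010 D A phi u a b c g
  have h3 := n010 D A phi u b a c g
  have e1 : m2 D A phi u b a (g.comp (X + C c)) = m2 D A phi u a b (g.comp (X + C c)) :=
    m2_symm _ _ _ _ _ _ _
  rw [e1] at h3
  have n1 : a - b ≠ 0 := sub_ne_zero.2 hab
  have n2 : a - c ≠ 0 := sub_ne_zero.2 hac
  have n3 : b - c ≠ 0 := sub_ne_zero.2 hbc
  have n4 : b - a ≠ 0 := sub_ne_zero.2 hab.symm
  have n5 : c - a ≠ 0 := sub_ne_zero.2 hac.symm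
  have n6 : c - b ≠ 0 := sub_ne_zero.2 hbc.symm
  have h2' : phi (aeval (ext3 D A a b c) g (st010 u)).2.2.2
      = (m2 D A phi u a c (g.comp (X + C b)) - m2 D A phi u a b (g.comp (X + C c)))
        / (b - c) := by
    rw [eq_div_iff n3]; linear_combination h2
  have h3' : phi (aeval (ext3 D A b a c) g (st010 u)).2.2.2
      = (m2 D A phi u b c (g.comp (X + C a)) - m2 D A phi u a b (g.comp (X + C c)))
        / (a - c) := by
    rw [eq_div_iff n2]; linear_combination h3
  have h1' : phi (aeval (ext3 D A a b c) g (st3 (0, u))).2.2.2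
      = (phi (aeval (ext3 D A b a c) g (st010 u)).2.2.2
        - phi (aeval (ext3 D A a b c) g (st010 u)).2.2.2) / (a - b) := by
    rw [eq_div_iff n1]; linear_combination h1
  rw [h1', h2', h3']
  field_simp
  ring

end Pool.Agent.H35.Tw
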