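import Pool.Agent.H35.Tw.Win

/-!
Dictionary: the block spaces are the coefficient vectors on the finite sets of sites.
-/

namespace Pool.Agent.H35.Tw

open Polynomial Finset

variable {R : Type} [Field R]

/-- create a particle at site `0` -/
def opC : (Finset ℕ → R) →ₗ[R] (Finset ℕ → R) where
  toFun f v := if 0 ∈ v then f (v.erase 0) else 0
  map_add' f g := by funext v; by_cases h : 0 ∈ v <;> simp [h]
  map_smul' c f := by funext v; by_cases h : 0 ∈ v <;> simp [h]

/-- hop from site `j` to site `j + 1` -/
def opH (j : ℕ) : (Finset ℕ → R) →ₗ[R] (Finset ℕ → R) where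
  toFun f v := if j + 1 ∈ v ∧ j ∉ v then f (insert j (v.erase (j + 1))) else 0
  map_add' f g := by funext v; by_cases h : j + 1 ∈ v ∧ j ∉ v <;> simp [h]
  map_smul' c f := by funext v; by_cases h : j + 1 ∈ v ∧ j ∉ v <;> simp [h]

/-- diagonal part of the letter of site `j` -/
def opN (y : ℕ → R) (pos : ℕ → Bool) (j : ℕ) : (Finset ℕ → R) →ₗ[R] (Finset ℕ → R) where
  toFun f v := if decide (j ∈ v) = pos j then y j * f v else 0
  map_add' f g := by
    funext v
    by_cases h : decide (j ∈ v) = pos j <;> simp [h, mul_add]
  map_smul' c f := by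
    funext v
    by_cases h : decide (j ∈ v) = pos j <;> simp [h, mul_left_comm]

/-- the letters -/
def opL (y : ℕ → R) (pos : ℕ → Bool) : ℕ → ((Finset ℕ → R) →ₗ[R] (Finset ℕ → R))
  | 0 => opC
  | j + 1 => opH j + opN y pos j

/-- sum of the letters `0, .., K` -/
def opD (y : ℕ → R) (pos : ℕ → Bool) (K : ℕ) : (Finset ℕ → R) →ₗ[R] (Finset ℕ → R) :=
  ∑ j ∈ range (K + 1), opL y pos j

lemma opC_apply (f : Finset ℕ → R) (v : Finset ℕ) :
    opC f v = if 0 ∈ v then f (v.erase 0) else 0 := rfl

lemma opH_apply (j : ℕ) (f : Finset ℕ → R) (v : Finset ℕ) :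
    opH j f v = if j + 1 ∈ v ∧ j ∉ v then f (insert j (v.erase (j + 1))) else 0 := rfl

lemma opN_apply (y : ℕ → R) (pos : ℕ → Bool) (j : ℕ) (f : Finset ℕ → R) (v : Finset ℕ) :
    opN y pos j f v = if decide (j ∈ v) = pos j then y j * f v else 0 := rfl

lemma opD_succ (y : ℕ → R) (pos : ℕ → Bool) (K : ℕ) :
    opD y pos (K + 1) = opD y pos K + (opH K + opN y pos K) := by
  rw [opD, sum_range_succ]
  rfl

/-- value at the sets with the site `k` added -/
def up (k : ℕ) : (Finset ℕ → R) →ₗ[R] (Finset ℕ → R) where
  toFun f v := f (insert k v)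
  map_add' _ _ := rfl
  map_smul' _ _ := rfl

lemma up_apply (k : ℕ) (f : Finset ℕ → R) (v : Finset ℕ) : up k f v = f (insert k v) := rfl

/-- the pending hop in terms of sets -/
def pend (k : ℕ) (f : Finset ℕ → R) (v : Finset ℕ) : R :=
  match k with
  | 0 => f v
  | k + 1 => if k ∈ v then 0 else f (insert k v)

lemma opD_low (y : ℕ → R) (pos : ℕ → Bool) (k : ℕ) (f : Finset ℕ → R) (v : Finset ℕ)
    (hv : v ⊆ range k) :
    opD y pos (k + 1) f v = opD y pos k f v + (if pos k then 0 else y k) * f v := by
  have h1 : k + 1 ∉ v := fun h => by have := mem_range.1 (hv h); omega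
  have h2 : k ∉ v := fun h => by have := mem_range.1 (hv h); omega
  rw [opD_succ]
  simp only [LinearMap.add_apply, Pi.add_apply, opH_apply, opN_apply, h1, h2]
  cases pos k <;> simp

lemma opD_high (y : ℕ → R) (pos : ℕ → Bool) (k : ℕ) (f : Finset ℕ → R) (v : Finset ℕ)
    (hv : v ⊆ range k) :
    opD y pos (k + 1) f (insert k v)
      = opD y pos k (up k f) v + pend k f v + (if pos k then y k else 0) * up k f v := by
  have hk : k ∉ v := fun h => by have := mem_range.1 (hv h); omega
  have hk1 : k + 1 ∉ v := fun h => by have := mem_range.1 (hv h); omega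
  have hlow : ∀ j, j < k → opL y pos j f (insert k v)
      = opL y pos j (up k f) v := by
    intro j hj
    cases j with
    | zero =>
      have h0 : (0 : ℕ) ∈ insert k v ↔ 0 ∈ v := by
        rw [mem_insert]
        exact or_iff_right (by omega)
      simp only [opL, opC_apply, up_apply, h0]
      by_cases h : 0 ∈ v
      · simp only [h, if_true]
        congr 1
        rw [erase_insert_of_ne (by omega)]
      · simp [h]
    | succ j =>
      have h0 : j + 1 ∈ insert k v ↔ j + 1 ∈ v := by
        rw [mem_insert]
        exact or_iff_right (by omega)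
      have h1 : j ∈ insert k v ↔ j ∈ v := by
        rw [mem_insert]
        exact or_iff_right (by omega)
      simp only [opL, LinearMap.add_apply, Pi.add_apply, opH_apply, opN_apply, up_apply, h0, h1]
      congr 1
      by_cases h : j + 1 ∈ v ∧ j ∉ v
      · simp only [h]
        simp only [not_false_eq_true, and_self, if_true]
        congr 1
        rw [erase_insert_of_ne (by omega), Finset.insert_comm]
      · simp [h]
  have hsum : ∀ (F : Finset ℕ → R) (u : Finset ℕ),
      opD y pos k F u = ∑ j ∈ range k, opL y pos j F u + opL y pos k F u := by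
    intro F u
    rw [opD, sum_range_succ, LinearMap.add_apply, Pi.add_apply, LinearMap.sum_apply,
      Finset.sum_apply]
  rw [opD_succ]
  simp only [LinearMap.add_apply, Pi.add_apply, hsum]
  have h3 : ∑ j ∈ range k, opL y pos j f (insert k v)
      = ∑ j ∈ range k, opL y pos j (up k f) v :=
    sum_congr rfl (fun j hj => hlow j (mem_range.1 hj))
  rw [h3]
  have h4 : opL y pos k f (insert k v) = opL y pos k (up k f) v + pend k f v := by
    cases k with
    | zero =>
      have hv0 : v = ∅ := by
        apply Finset.eq_empty_of_forall_notMem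
        intro a ha
        have := mem_range.1 (hv ha)
        omega
      subst hv0
      simp [opL, opC_apply, pend]
    | succ k =>
      have h5 : k ∈ insert (k + 1) v ↔ k ∈ v := by
        rw [mem_insert]
        exact or_iff_right (by omega)
      simp only [opL, LinearMap.add_apply, Pi.add_apply, opH_apply, opN_apply, up_apply, h5,
        mem_insert_self, hk, pend]
      have h6 : (insert (k + 1) v).erase (k + 1) = v := erase_insert hk
      rw [h6]
      by_cases h : k ∈ v
      · simp [h]
      · simp only [h, not_false_eq_true, and_self, if_true, decide_false, if_false]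
        simp
        ring
  rw [h4]
  have h7 : opH k f (insert k v) = 0 := by
    simp [opH_apply]
  have h8 : opN y pos k f (insert k v) = (if pos k then y k else 0) * up k f v := by
    simp only [opN_apply, mem_insert_self, up_apply]
    cases pos k <;> simp
  rw [h7, h8]
  ring

/-- a system is the block form of the operator on finite sets with `k` sites -/
structure Dict (s : Sys R) (k : ℕ) (y : ℕ → R) (pos : ℕ → Bool) (S : Finset ℕ) (c : R) where
  rho : (Finset ℕ → R) →ₗ[R] s.V
  loc : ∀ f g : Finset ℕ → R, (∀ v, v ⊆ range k → f v = g v) → rho f = rho g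
  hS : S ⊆ range k
  hD : ∀ f, rho (opD y pos k f) = s.D (rho f) + c • rho f
  hA : ∀ f, rho (fun v => pend k f v) = s.A (rho f)
  hu : rho (Pi.single S 1) = s.u
  hphi : ∀ f, s.phi (rho f) = f S

/-- no site -/
def Dict.base (y : ℕ → R) (pos : ℕ → Bool) : Dict (Sys.base R) 0 y pos ∅ 0 where
  rho := { toFun := fun f => f ∅, map_add' := fun _ _ => rfl, map_smul' := fun _ _ => rfl }
  loc f g h := h ∅ (by simp)
  hS := by simp
  hD f := by
    change opD y pos 0 f ∅ = (0 : R →ₗ[R] R) (f ∅) + (0 : R) • f ∅
    simp [opD, opL, opC_apply]
  hA f := rfl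
  hu := by
    change (Pi.single (∅ : Finset ℕ) (1 : R) : Finset ℕ → R) ∅ = 1
    simp
  hphi f := rfl

lemma single_up_of_notMem {k : ℕ} {S v : Finset ℕ} (hk : k ∉ S) :
    (Pi.single S (1 : R) : Finset ℕ → R) (insert k v) = 0 := by
  rw [Pi.single_apply, if_neg]
  intro h
  exact hk (h ▸ mem_insert_self k v)

lemma single_up {k : ℕ} {S v : Finset ℕ} (hS : S ⊆ range k) (hv : v ⊆ range k) :
    (Pi.single (insert k S) (1 : R) : Finset ℕ → R) (insert k v)
      = (Pi.single S (1 : R) : Finset ℕ → R) v := by
  have h1 : k ∉ v := fun h => by have := mem_range.1 (hv h); omega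
  have h2 : k ∉ S := fun h => by have := mem_range.1 (hS h); omega
  rw [Pi.single_apply, Pi.single_apply]
  by_cases h : v = S
  · subst h; simp
  · rw [if_neg h, if_neg]
    intro h'
    apply h
    have := congrArg (fun w => w.erase k) h'
    simpa [erase_insert h1, erase_insert h2] using this

/-- one more site -/
def Dict.add {s : Sys R} {k : ℕ} {y : ℕ → R} {pos : ℕ → Bool} {S : Finset ℕ} {c : R}
    (d : Dict s k y pos S c) (full : Bool) :
    Dict (s.add full (if pos k then y k else -(y k))) (k + 1) y pos
      (if full then insert k S else S) (c + if pos k then 0 else y k) where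
  rho := (d.rho).prod (d.rho ∘ₗ up k)
  loc f g h := by
    refine Prod.ext ?_ ?_
    · exact d.loc f g (fun v hv => h v (hv.trans (range_mono (by omega))))
    · refine d.loc _ _ (fun v hv => h _ ?_)
      intro a ha
      rcases mem_insert.1 ha with rfl | ha
      · exact mem_range.2 (by omega)
      · exact mem_range.2 (by have := mem_range.1 (hv ha); omega)
  hS := by
    cases full
    · exact d.hS.trans (range_mono (by omega))
    · intro a ha
      rcases mem_insert.1 ha with rfl | ha
      · exact mem_range.2 (by omega)
      · exact mem_range.2 (by have := mem_range.1 (d.hS ha); omega)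
  hD f := by
    have e1 : d.rho (opD y pos (k + 1) f)
        = d.rho (opD y pos k f + (if pos k then 0 else y k) • f) := by
      refine d.loc _ _ (fun v hv => ?_)
      rw [opD_low y pos k f v hv]
      rfl
    have e2 : d.rho (up k (opD y pos (k + 1) f))
        = d.rho (opD y pos k (up k f) + (fun v => pend k f v)
          + (if pos k then y k else 0) • up k f) := by
      refine d.loc _ _ (fun v hv => ?_)
      rw [up_apply, opD_high y pos k f v hv]
      rfl
    rw [map_add, map_smul, d.hD] at e1
    rw [map_add, map_add, map_smul, d.hD, d.hA] at e2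
    refine Prod.ext ?_ ?_
    · change d.rho (opD y pos (k + 1) f)
        = s.D (d.rho f) + (c + if pos k then 0 else y k) • d.rho f
      rw [e1]
      module
    · change d.rho (up k (opD y pos (k + 1) f))
        = (s.A (d.rho f) + s.D (d.rho (up k f))
          + (if pos k then y k else -(y k)) • d.rho (up k f))
          + (c + if pos k then 0 else y k) • d.rho (up k f)
      rw [e2]
      cases pos k
      · simp only [Bool.false_eq_true, if_false]
        module
      · simp only [if_true]
        module
  hA f := by
    refine Prod.ext ?_ ?_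
    · change d.rho (fun v => pend (k + 1) f v) = d.rho (up k f)
      refine d.loc _ _ (fun v hv => ?_)
      have h1 : k ∉ v := fun h => by have := mem_range.1 (hv h); omega
      simp [pend, h1, up_apply]
    · change d.rho (up k (fun v => pend (k + 1) f v)) = 0
      rw [← map_zero d.rho]
      refine d.loc _ _ (fun v hv => ?_)
      simp [up_apply, pend]
  hu := by
    cases full
    · refine Prod.ext ?_ ?_
      · exact d.hu
      · change d.rho (up k (Pi.single S 1)) = 0
        rw [← map_zero d.rho]
        refine d.loc _ _ (fun v _ => ?_)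
        rw [up_apply]
        exact single_up_of_notMem (fun h => by have := mem_range.1 (d.hS h); omega)
    · refine Prod.ext ?_ ?_
      · change d.rho (Pi.single (insert k S) 1) = 0
        rw [← map_zero d.rho]
        refine d.loc _ _ (fun v hv => ?_)
        have h1 : k ∉ v := fun h => by have := mem_range.1 (hv h); omega
        rw [Pi.single_apply, if_neg]
        · rfl
        · intro h
          exact h1 (h ▸ mem_insert_self k S)
      · change d.rho (up k (Pi.single (insert k S) 1)) = s.u
        rw [← d.hu]
        refine d.loc _ _ (fun v hv => ?_)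
        rw [up_apply]
        exact single_up d.hS hv
  hphi f := by
    cases full
    · exact d.hphi f
    · exact d.hphi (up k f)

/-- the matrix elements agree -/
theorem Dict.M_eq {s : Sys R} {k : ℕ} {y : ℕ → R} {pos : ℕ → Bool} {S : Finset ℕ} {c : R}
    (d : Dict s k y pos S c) (h1 : pos k = true) (h2 : pos (k + 1) = true) (g : R[X]) :
    s.M (y k) (y (k + 1)) (g.comp (X + C c))
      = (aeval (opD y pos (k + 2)) g (Pi.single S 1)) (insert (k + 1) (insert k S)) := by
  let d2 := (d.add false).add false
  have hint : d2.rho ∘ₗ opD y pos (k + 2)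
      = (shift ((s.add false (if pos k then y k else -(y k))).add false
          (if pos (k + 1) then y (k + 1) else -(y (k + 1)))).D
          (c + (if pos k then 0 else y k) + if pos (k + 1) then 0 else y (k + 1))) ∘ₗ d2.rho := by
    apply LinearMap.ext
    intro f
    exact d2.hD f
  have h := comp_aeval d2.rho (opD y pos (k + 2)) _ hint g (Pi.single S 1)
  rw [aeval_shift] at h
  have hu : d2.rho (Pi.single S 1)
      = ((s.add false (if pos k then y k else -(y k))).add false
          (if pos (k + 1) then y (k + 1) else -(y (k + 1)))).u := d2.hu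
  rw [hu] at h
  have hl : s.phi (d2.rho (aeval (opD y pos (k + 2)) g (Pi.single S 1))).2.2
      = (aeval (opD y pos (k + 2)) g (Pi.single S 1)) (insert (k + 1) (insert k S)) :=
    d.hphi (up k (up (k + 1) (aeval (opD y pos (k + 2)) g (Pi.single S 1))))
  have key : ∀ (t1 t2 c' : R), t1 = y k → t2 = y (k + 1) → c' = c →
      s.M (y k) (y (k + 1)) (g.comp (X + C c))
        = s.phi ((aeval ((s.add false t1).add false t2).D (g.comp (X + C c')))
            ((s.add false t1).add false t2).u).2.2 := by
    rintro _ _ _ rfl rfl rfl
    rfl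
  rw [← hl, h]
  exact key _ _ _ (by simp [h1]) (by simp [h2]) (by simp [h1, h2])

end Pool.Agent.H35.Tw
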