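import Pool.Agent.H35.Tw.Base
import Pool.Agent.H30.WF.Def

/-!
The weighted sum over words is the window recursion `Wr`.
-/

namespace Pool.Agent.H35.Tw

open Polynomial Pool.Agent.H30.WF

variable {R : Type} [Field R]

theorem W_symm (q : R) (x : ℕ → R) (m b : ℕ) (y z : R) (g : R[X]) :
    W q x m b y z g = W q x m b z y g := by
  unfold W
  congr 1
  apply List.map_congr_left
  intro w _
  rw [Sys.M_symm]

/-- outer nodes of the window `[b, e)` -/
def Out (q : R) (b e : ℕ) (y : R) : Prop :=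
  (∃ j, e ≤ j ∧ y = q ^ j) ∨ (∃ j, j < b ∧ y = -(q ^ j))

section facts

variable {q : R} (h0 : q ≠ 0) (h1 : ∀ n : ℕ, 1 ≤ n → q ^ n ≠ 1) (h2 : ∀ n : ℕ, 1 ≤ n → q ^ n ≠ -1)

include h0 h1 in
lemma pow_ne_pow {i j : ℕ} (h : i < j) : q ^ i ≠ q ^ j := by
  intro he
  obtain ⟨n, rfl⟩ := Nat.exists_eq_add_of_lt h
  have hi : q ^ i ≠ 0 := pow_ne_zero _ h0
  have : q ^ i * (q ^ (n + 1) - 1) = 0 := by
    rw [mul_sub, mul_one, ← pow_add, ← add_assoc, ← he, sub_self]
  rcases mul_eq_zero.1 this with h | h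
  · exact hi h
  · exact h1 (n + 1) (by omega) (sub_eq_zero.1 h)

include h0 h2 in
lemma pow_ne_neg_pow {i j : ℕ} (h : i < j) : q ^ j ≠ -(q ^ i) := by
  intro he
  obtain ⟨n, rfl⟩ := Nat.exists_eq_add_of_lt h
  have hi : q ^ i ≠ 0 := pow_ne_zero _ h0
  have : q ^ i * (q ^ (n + 1) + 1) = 0 := by
    rw [mul_add, mul_one, ← pow_add, ← add_assoc, he]; ring
  rcases mul_eq_zero.1 this with h | h
  · exact hi h
  · exact h2 (n + 1) (by omega) (eq_neg_of_add_eq_zero_left h)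

include h0 h2 in
lemma pow_ne_neg_pow' {i j : ℕ} (h : i ≠ j) : q ^ j ≠ -(q ^ i) := by
  rcases lt_or_gt_of_ne h with h | h
  · exact pow_ne_neg_pow h0 h2 h
  · intro he
    apply pow_ne_neg_pow h0 h2 h
    rw [he, neg_neg]

include h0 in
lemma Out.ne_zero {b e : ℕ} {y : R} (hy : Out q b e y) : y ≠ 0 := by
  rcases hy with ⟨j, _, rfl⟩ | ⟨j, _, rfl⟩
  · exact pow_ne_zero _ h0
  · exact neg_ne_zero.2 (pow_ne_zero _ h0)

include h0 h1 h2 in
lemma Out.ne_pow {b e i : ℕ} {y : R} (hy : Out q b e y) (hb : b ≤ i) (he : i < e) :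
    q ^ i ≠ y := by
  rcases hy with ⟨j, hj, rfl⟩ | ⟨j, hj, rfl⟩
  · exact pow_ne_pow h0 h1 (by omega)
  · exact pow_ne_neg_pow h0 h2 (by omega)

include h0 h1 h2 in
lemma Out.neg_ne {b e i : ℕ} {y : R} (hy : Out q b e y) (hb : b ≤ i) (he : i < e) :
    -(q ^ i) ≠ y := by
  rcases hy with ⟨j, hj, rfl⟩ | ⟨j, hj, rfl⟩
  · exact (pow_ne_neg_pow h0 h2 (by omega)).symm
  · intro h
    exact pow_ne_pow h0 h1 (show j < i by omega) (neg_injective h).symm

include h0 h1 h2 in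
lemma Out.add_ne {b e : ℕ} {y z : R} (hbe : b ≤ e) (hy : Out q b e y) (hz : Out q b e z)
    (hyz : y ≠ z) : y + z ≠ 0 := by
  intro h
  have hyz' : y = -z := eq_neg_of_add_eq_zero_left h
  rcases hy with ⟨i, hi, rfl⟩ | ⟨i, hi, rfl⟩ <;> rcases hz with ⟨j, hj, rfl⟩ | ⟨j, hj, rfl⟩
  · have hne : i ≠ j := fun h => hyz (by rw [h])
    exact pow_ne_neg_pow' h0 h2 hne.symm hyz'
  · rw [neg_neg] at hyz'
    exact pow_ne_pow h0 h1 (show j < i by omega) hyz'.symm
  · exact pow_ne_pow h0 h1 (show i < j by omega) (neg_injective hyz')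
  · have hne : i ≠ j := fun h => hyz (by rw [h])
    rw [neg_neg] at hyz'
    exact pow_ne_neg_pow' h0 h2 hne hyz'.symm

lemma Out.mono {b e b' e' : ℕ} {y : R} (hy : Out q b e y) (hb : b ≤ b') (he : e' ≤ e) :
    Out q b' e' y := by
  rcases hy with ⟨j, hj, rfl⟩ | ⟨j, hj, rfl⟩
  · exact Or.inl ⟨j, by omega, rfl⟩
  · exact Or.inr ⟨j, by omega, rfl⟩

include h0 h1 h2 in
theorem W_eq_Wr (m : ℕ) : ∀ (b : ℕ) (y z : R) (g : R[X]), y ≠ z → Out q b (b + m) y →
    Out q b (b + m) z →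
    W q (fun i => q ^ i) m b y z g = Wr q m (q ^ b) y z (fun t => g.eval t) := by
  induction m with
  | zero =>
    intro b y z g hyz hy hz
    rw [W_zero, Wr_zero, base_M y z g (hy.ne_zero h0) (hz.ne_zero h0) (sub_ne_zero.2 hyz)
      (Out.add_ne h0 h1 h2 (by omega) hy hz hyz)]
    have e1 : y ≠ 0 := hy.ne_zero h0
    have e2 : z ≠ 0 := hz.ne_zero h0
    have e3 : y - z ≠ 0 := sub_ne_zero.2 hyz
    have e4 : y + z ≠ 0 := Out.add_ne h0 h1 h2 (by omega) hy hz hyz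
    simp only [dd, smul_eq_mul]
    field_simp
  | succ m ih =>
    intro b y z g hyz hy hz
    have hy1 : q ^ (b + m) ≠ y := hy.ne_pow h0 h1 h2 (by omega) (by omega)
    have hz1 : q ^ (b + m) ≠ z := hz.ne_pow h0 h1 h2 (by omega) (by omega)
    have hy2 : -(q ^ b) ≠ y := hy.neg_ne h0 h1 h2 (by omega) (by omega)
    have hz2 : -(q ^ b) ≠ z := hz.neg_ne h0 h1 h2 (by omega) (by omega)
    rw [W_succ q (fun i => q ^ i) m b y z g hyz hy1 hz1 hy2 hz2, Wr_succ]
    have o1 : Out q b (b + m) y := hy.mono (by omega) (by omega)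
    have o2 : Out q b (b + m) z := hz.mono (by omega) (by omega)
    have o3 : Out q b (b + m) (q ^ (b + m)) := Or.inl ⟨b + m, le_rfl, rfl⟩
    have p1 : Out q (b + 1) (b + 1 + m) y := hy.mono (by omega) (by omega)
    have p2 : Out q (b + 1) (b + 1 + m) z := hz.mono (by omega) (by omega)
    have p3 : Out q (b + 1) (b + 1 + m) (-(q ^ b)) := Or.inr ⟨b, by omega, rfl⟩
    have hpow : q ^ b * q ^ m = q ^ (b + m) := (pow_add q b m).symm
    have hpow1 : q ^ b * q = q ^ (b + 1) := (pow_succ q b).symm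
    simp only [tri, smul_eq_mul, hpow, hpow1]
    rw [W_symm q _ m b (q ^ (b + m)) z g, W_symm q _ m b (q ^ (b + m)) y g,
      W_symm q _ m (b + 1) (-(q ^ b)) z, W_symm q _ m (b + 1) (-(q ^ b)) y,
      ih b y z g hyz o1 o2, ih b z (q ^ (b + m)) g hz1.symm o2 o3,
      ih b y (q ^ (b + m)) g hy1.symm o1 o3,
      ih (b + 1) y z _ hyz p1 p2, ih (b + 1) z (-(q ^ b)) _ hz2.symm p2 p3,
      ih (b + 1) y (-(q ^ b)) _ hy2.symm p1 p3]
    have f1 : (fun t : R => (g.comp (X + C (-(q ^ b) + q ^ b))).eval t)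
        = fun t => g.eval t := by
      funext t; simp
    have f2 : (fun t : R => (g.comp (X + C (y + q ^ b))).eval t)
        = fun t => g.eval (t + y + q ^ b) := by
      funext t; simp [eval_comp, add_assoc]
    have f3 : (fun t : R => (g.comp (X + C (z + q ^ b))).eval t)
        = fun t => g.eval (t + z + q ^ b) := by
      funext t; simp [eval_comp, add_assoc]
    rw [f1, f2, f3]
    simp only [div_eq_mul_inv, sub_neg_eq_add]
    ring

include h0 h1 h2 in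
/-- C2: the weighted sum over all words is the window recursion -/
theorem W_main (m : ℕ) (g : R[X]) :
    W q (fun i => q ^ i) m 0 (q ^ m) (q ^ (m + 1)) g
      = Wr q m 1 (q ^ m) (q ^ (m + 1)) (fun t => g.eval t) := by
  have h := W_eq_Wr h0 h1 h2 m 0 (q ^ m) (q ^ (m + 1)) g
    (pow_ne_pow h0 h1 (by omega)) (Or.inl ⟨m, by omega, rfl⟩) (Or.inl ⟨m + 1, by omega, rfl⟩)
  rw [h, pow_zero]

end facts

end Pool.Agent.H35.Tw
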