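import Pool.Agent.H35.Tw.Dic
import Pool.Agent.H35.Tw.Rec
import Pool.Agent.H53.RQ.Defs

/-!
The average of matrix elements of `H53.RQ` is the sum over words.
-/

namespace Pool.Agent.H35.Tw

open Polynomial Finset

/-- the word of a set of sites -/
def wd : ℕ → Finset ℕ → List Bool
  | 0, _ => []
  | m + 1, S => decide (m ∈ S) :: wd m S

lemma wd_length (m : ℕ) (S : Finset ℕ) : (wd m S).length = m := by
  induction m with
  | zero => rfl
  | succ m ih => simp [wd, ih]

lemma wd_congr (m : ℕ) (S T : Finset ℕ) (h : ∀ i, i < m → (i ∈ S ↔ i ∈ T)) :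
    wd m S = wd m T := by
  induction m with
  | zero => rfl
  | succ m ih =>
    simp only [wd]
    rw [ih (fun i hi => h i (by omega))]
    congr 1
    exact decide_eq_decide.2 (h m (by omega))

lemma sum_words {M : Type*} [AddCommMonoid M] (m : ℕ) (F : List Bool → M) :
    ((words m).map F).sum = ∑ S ∈ (range m).powerset, F (wd m S) := by
  induction m generalizing F with
  | zero => simp [words, wd]
  | succ m ih =>
    rw [words, List.map_append, List.sum_append, List.map_map, List.map_map, ih, ih,
      range_add_one, sum_powerset_insert notMem_range_self]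
    congr 1
    · apply sum_congr rfl
      intro S hS
      have hm : m ∉ S := fun h => notMem_range_self (mem_powerset.1 hS h)
      simp [wd, hm]
    · apply sum_congr rfl
      intro S _
      have h1 : wd m (insert m S) = wd m S := by
        apply wd_congr
        intro i hi
        rw [mem_insert]
        exact or_iff_right (by omega)
      simp [wd, h1]

lemma wexp_wd (m : ℕ) (S : Finset ℕ) : wexp (wd m S) = ∑ s ∈ range m \ S, (s + 1) := by
  induction m with
  | zero => simp [wd, wexp]
  | succ m ih =>
    have h : range (m + 1) \ S = if m ∈ S then range m \ S else insert m (range m \ S) := by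
      ext a
      by_cases hm : m ∈ S
      · simp only [hm, if_true, mem_sdiff, mem_range]
        constructor
        · rintro ⟨h1, h2⟩
          refine ⟨?_, h2⟩
          rcases Nat.lt_succ_iff_lt_or_eq.1 h1 with h | h
          · exact h
          · exact absurd (h ▸ hm) h2
        · rintro ⟨h1, h2⟩
          exact ⟨by omega, h2⟩
      · simp only [hm, if_false, mem_sdiff, mem_range, mem_insert]
        constructor
        · rintro ⟨h1, h2⟩
          rcases Nat.lt_succ_iff_lt_or_eq.1 h1 with h | h
          · exact Or.inr ⟨h, h2⟩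
          · exact Or.inl h
        · rintro (h | ⟨h1, h2⟩)
          · subst h; exact ⟨by omega, hm⟩
          · exact ⟨by omega, h2⟩
    rw [h]
    by_cases hm : m ∈ S
    · simp [wd, wexp, hm, ih]
    · rw [if_neg hm, sum_insert (by simp)]
      simp [wd, wexp, hm, ih, wd_length]

/-- number of full sites between `s` and `m` -/
def cin (m : ℕ) (S : Finset ℕ) (s : ℕ) : ℕ := ((range m).filter fun i => s < i ∧ i ∈ S).card

/-- number of empty sites between `s` and `m` -/
def cout (m : ℕ) (S : Finset ℕ) (s : ℕ) : ℕ := ((range m).filter fun i => s < i ∧ i ∉ S).card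

lemma cin_succ (m : ℕ) (S : Finset ℕ) (s : ℕ) (hs : s < m) :
    cin (m + 1) S s = cin m S s + if m ∈ S then 1 else 0 := by
  unfold cin
  rw [range_add_one, filter_insert]
  by_cases hm : m ∈ S
  · rw [if_pos ⟨hs, hm⟩, card_insert_of_notMem (by simp)]
    simp [hm]
  · rw [if_neg (by tauto)]
    simp [hm]

lemma cout_succ (m : ℕ) (S : Finset ℕ) (s : ℕ) (hs : s < m) :
    cout (m + 1) S s = cout m S s + if m ∈ S then 0 else 1 := by
  unfold cout
  rw [range_add_one, filter_insert]
  by_cases hm : m ∈ S
  · rw [if_neg (by tauto)]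
    simp [hm]
  · rw [if_pos ⟨hs, hm⟩, card_insert_of_notMem (by simp)]
    simp [hm]

lemma cin_self (m : ℕ) (S : Finset ℕ) : cin (m + 1) S m = 0 := by
  unfold cin
  rw [card_eq_zero, filter_eq_empty_iff]
  intro i hi h
  have := mem_range.1 hi
  omega

lemma cout_self (m : ℕ) (S : Finset ℕ) : cout (m + 1) S m = 0 := by
  unfold cout
  rw [card_eq_zero, filter_eq_empty_iff]
  intro i hi h
  have := mem_range.1 hi
  omega

lemma cout_le (m : ℕ) (S : Finset ℕ) (s : ℕ) (hs : s < m) : cout m S s ≤ m - 1 - s := by
  unfold cout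
  have h : ((range m).filter fun i => s < i ∧ i ∉ S) ⊆ Ioo s m := by
    intro i hi
    rw [mem_filter, mem_range] at hi
    rw [mem_Ioo]
    exact ⟨hi.2.1, hi.1⟩
  have := card_le_card h
  rw [Nat.card_Ioo] at this
  omega

/-- the dictionary of a set of sites -/
theorem dict_wd (q : ℝ) (S : Finset ℕ) (Y : ℕ → ℝ) (pos : ℕ → Bool) (m : ℕ) :
    ∀ b : ℕ,
    (∀ s, s < m → Y s = if s ∈ S then q ^ (b + cin m S s) else q ^ (b + (m - 1 - cout m S s))) →
    (∀ s, s < m → pos s = decide (s ∉ S)) →
    Nonempty (Dict (wsys (fun i => q ^ i) (wd m S) b) m Y pos (S ∩ range m)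
      (wneg (fun i => q ^ i) (wd m S) b)) := by
  induction m with
  | zero =>
    intro b _ _
    have h : S ∩ range 0 = ∅ := by simp
    rw [h]
    exact ⟨Dict.base Y pos⟩
  | succ m ih =>
    intro b hY hpos
    by_cases hm : m ∈ S
    · have hY' : ∀ s, s < m → Y s
          = if s ∈ S then q ^ (b + 1 + cin m S s) else q ^ (b + 1 + (m - 1 - cout m S s)) := by
        intro s hs
        rw [hY s (by omega), cin_succ m S s hs, cout_succ m S s hs, if_pos hm, if_pos hm]
        have := cout_le m S s hs
        split_ifs
        · congr 1; omega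
        · congr 1; omega
      obtain ⟨d⟩ := ih (b + 1) hY' (fun s hs => hpos s (by omega))
      have hp : pos m = false := by rw [hpos m (by omega)]; simp [hm]
      have hYm : Y m = q ^ b := by
        rw [hY m (by omega), if_pos hm, cin_self, add_zero]
      have hset : S ∩ range (m + 1) = insert m (S ∩ range m) := by
        rw [range_add_one, inter_insert_of_mem hm]
      have d2 := d.add true
      rw [hset]
      have hw : wd (m + 1) S = true :: wd m S := by simp [wd, hm]
      rw [hw]
      simp only [hp, Bool.false_eq_true, if_false, if_true, hYm] at d2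
      refine ⟨?_⟩
      have hc : wneg (fun i => q ^ i) (true :: wd m S) b
          = wneg (fun i => q ^ i) (wd m S) (b + 1) + q ^ b := by
        simp only [wneg]; ring
      rw [hc]
      exact d2
    · have hY' : ∀ s, s < m → Y s
          = if s ∈ S then q ^ (b + cin m S s) else q ^ (b + (m - 1 - cout m S s)) := by
        intro s hs
        rw [hY s (by omega), cin_succ m S s hs, cout_succ m S s hs, if_neg hm, if_neg hm]
        have := cout_le m S s hs
        split_ifs
        · congr 1
        · congr 1; omega
      obtain ⟨d⟩ := ih b hY' (fun s hs => hpos s (by omega))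
      have hp : pos m = true := by rw [hpos m (by omega)]; simp [hm]
      have hYm : Y m = q ^ (b + m) := by
        rw [hY m (by omega), if_neg hm, cout_self]
        congr 1
      have hset : S ∩ range (m + 1) = S ∩ range m := by
        rw [range_add_one, inter_insert_of_notMem hm]
      have d2 := d.add false
      rw [hset]
      have hw : wd (m + 1) S = false :: wd m S := by simp [wd, hm]
      rw [hw]
      simp only [hp, Bool.false_eq_true, if_false, if_true, hYm, add_zero] at d2
      refine ⟨?_⟩
      have hs : wsys (fun i => q ^ i) (false :: wd m S) b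
          = (wsys (fun i => q ^ i) (wd m S) b).add false (q ^ (b + m)) := by
        simp only [wsys, wd_length]
      rw [hs]
      exact d2

lemma opD_eq_Dop (K : ℕ) (y : ℕ → ℝ) (pos : ℕ → Bool) :
    opD y pos K = Pool.H53.RQ.Dop K y pos := by
  unfold opD Pool.H53.RQ.Dop
  apply sum_congr rfl
  intro j _
  cases j with
  | zero => rfl
  | succ j =>
    apply LinearMap.ext
    intro f
    funext v
    change (if j + 1 ∈ v ∧ j ∉ v then f (insert j (v.erase (j + 1))) else 0)
      + (if decide (j ∈ v) = pos j then y j * f v else 0)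
      = (if j + 1 ∈ v ∧ j ∉ v then f (insert j (v.erase (j + 1))) else 0)
      + (if (j ∈ v ↔ pos j = true) then y j * f v else 0)
    congr 1
    by_cases h : j ∈ v <;> cases hp : pos j <;> simp [h]

/-- the average of matrix elements is the sum over words -/
theorem W_eq (q : ℝ) (m : ℕ) (g : ℝ[X]) :
    Pool.H53.RQ.W q m g = W q (fun i => q ^ i) m 0 (q ^ m) (q ^ (m + 1)) g := by
  unfold W Pool.H53.RQ.W
  rw [sum_words]
  apply sum_congr rfl
  intro S hS
  have hS' : S ⊆ range m := mem_powerset.1 hS
  rw [wexp_wd]
  congr 1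
  have h1 : ∀ s, s < m → Pool.H53.RQ.nod q m S s
      = if s ∈ S then q ^ (0 + cin m S s) else q ^ (0 + (m - 1 - cout m S s)) := by
    intro s hs
    unfold Pool.H53.RQ.nod
    rw [if_neg (by omega), zero_add, zero_add]
    rfl
  have h2 : ∀ s, s < m → Pool.H53.RQ.sgn m S s = decide (s ∉ S) := by
    intro s hs
    unfold Pool.H53.RQ.sgn
    rw [decide_eq_decide]
    constructor
    · rintro (h | h)
      · omega
      · exact h
    · exact Or.inr
  obtain ⟨d⟩ := dict_wd q S (Pool.H53.RQ.nod q m S) (Pool.H53.RQ.sgn m S) m 0 h1 h2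
  have h3 : Pool.H53.RQ.sgn m S m = true := by simp [Pool.H53.RQ.sgn]
  have h4 : Pool.H53.RQ.sgn m S (m + 1) = true := by simp [Pool.H53.RQ.sgn]
  have h5 : Pool.H53.RQ.nod q m S m = q ^ m := by simp [Pool.H53.RQ.nod]
  have h6 : Pool.H53.RQ.nod q m S (m + 1) = q ^ (m + 1) := by simp [Pool.H53.RQ.nod]
  have h7 : S ∩ range m = S := inter_eq_left.2 hS'
  have h := d.M_eq h3 h4 g
  rw [h5, h6, h7] at h
  have hset : insert (m + 1) (insert m S) = S ∪ {m, m + 1} := by
    ext a
    simp only [mem_union, mem_insert, mem_singleton]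
    tauto
  rw [h, opD_eq_Dop, hset]
  rfl

end Pool.Agent.H35.Tw

namespace Pool.Agent.H35.Tw

/-- part C2 in the terms of `H53.RQ` and `H30.WF` -/
theorem W_Wr (q : ℝ) (hq0 : 0 < q) (hq1 : q < 1) (m : ℕ) (g : Polynomial ℝ) :
    Pool.H53.RQ.W q m g
      = Pool.Agent.H30.WF.Wr q m 1 (q ^ m) (q ^ (m + 1)) (fun t => g.eval t) := by
  rw [W_eq]
  apply W_main hq0.ne'
  · intro n hn h
    have := pow_lt_one₀ hq0.le hq1 (show n ≠ 0 by omega)
    linarith
  · intro n _ h
    have := pow_pos hq0 n
    linarith

end Pool.Agent.H35.Tw
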