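import Pool.Agent.H35.Tw.Base

/-!
The letters on the block spaces, their relations.
-/

set_option linter.unusedSimpArgs false
set_option linter.unusedSectionVars false

namespace Pool.Agent.H35.Tw

variable {R : Type} [Field R]

section blocks

variable {V : Type} [AddCommGroup V] [Module R V]

/-- two by two block operator -/
def B (X Y Z W : Module.End R V) : Module.End R (V × V) where
  toFun v := (X v.1 + Y v.2, Z v.1 + W v.2)
  map_add' v w := by
    ext
    · simp only [Prod.fst_add, Prod.snd_add, map_add]; abel
    · simp only [Prod.fst_add, Prod.snd_add, map_add]; abel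
  map_smul' c v := by
    ext
    · simp
    · simp

@[simp] lemma B_apply (X Y Z W : Module.End R V) (v : V × V) :
    B X Y Z W v = (X v.1 + Y v.2, Z v.1 + W v.2) := rfl

lemma B_mul (X Y Z W X' Y' Z' W' : Module.End R V) :
    B X Y Z W * B X' Y' Z' W'
      = B (X * X' + Y * Z') (X * Y' + Y * W') (Z * X' + W * Z') (Z * Y' + W * W') := by
  apply LinearMap.ext
  rintro ⟨v, w⟩
  simp only [Module.End.mul_apply, B_apply, map_add, LinearMap.add_apply]
  refine Prod.ext ?_ ?_ <;> simp only [] <;> abel

lemma B_add (X Y Z W X' Y' Z' W' : Module.End R V) :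
    B X Y Z W + B X' Y' Z' W' = B (X + X') (Y + Y') (Z + Z') (W + W') := by
  apply LinearMap.ext
  rintro ⟨v, w⟩
  simp only [B_apply, LinearMap.add_apply, Prod.mk_add_mk]
  refine Prod.ext ?_ ?_ <;> simp only [] <;> abel

lemma B_smul (c : R) (X Y Z W : Module.End R V) :
    c • B X Y Z W = B (c • X) (c • Y) (c • Z) (c • W) := by
  apply LinearMap.ext
  rintro ⟨v, w⟩
  simp [B_apply]

lemma B_zero : (B 0 0 0 0 : Module.End R (V × V)) = 0 := by
  apply LinearMap.ext
  rintro ⟨v, w⟩
  simp [B_apply]

lemma B_one : (B 1 0 0 1 : Module.End R (V × V)) = 1 := by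
  apply LinearMap.ext
  rintro ⟨v, w⟩
  simp [B_apply]

lemma hop_eq_B : (hop : Module.End R (V × V)) = B 0 1 0 0 := by
  apply LinearMap.ext
  rintro ⟨v, w⟩
  simp [B_apply, hop]

lemma ext_eq_B (D A : Module.End R V) (t : R) :
    (ext D A t : Module.End R (V × V)) = B D 0 A (D + t • 1) := by
  apply LinearMap.ext
  rintro ⟨v, w⟩
  simp [B_apply, ext, add_assoc]

end blocks

/-- the relations of the letters `0, .., k` in a ring; `x` values, `e` types (`true` is plus) -/
structure IsLet {S : Type} [Ring S] [Algebra R S] (k : ℕ) (a : ℕ → S) (x : ℕ → R)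
    (e : ℕ → Bool) : Prop where
  x0 : x 0 = 0
  sq : ∀ j, j ≤ k → a j * a j = x j • a j
  far : ∀ i j, i + 2 ≤ j → j ≤ k → a i * a j = a j * a i
  up : ∀ j, j + 1 ≤ k → a (j + 1) * a j * a (j + 1)
    = x (j + 1) • (if e (j + 1) then a j * a (j + 1) else a (j + 1) * a j)
  dn : ∀ i, 1 ≤ i → i + 1 ≤ k → a i * a (i + 1) * a i
    = x i • (if e i then a i * a (i + 1) else a (i + 1) * a i)

/-- the relations of the pending hop `A` -/
structure IsPend {S : Type} [Ring S] [Algebra R S] (k : ℕ) (a : ℕ → S) (A : S) (x : ℕ → R)
    (e : ℕ → Bool) : Prop where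
  f1 : ∀ l, 1 ≤ l → l + 1 = k → a l * A * a l = x l • (if e l then a l * A else A * a l)
  f2 : ∀ l, l + 1 = k → A * a l * a k + a k * a l * A
    = x k • (if e k then a l * A else A * a l)
  f3 : ∀ i, i + 2 ≤ k → a i * A = A * a i
  f4 : a k * A = if e k then 0 else x k • A
  f4' : A * a k = if e k then x k • A else 0
  f5 : 1 ≤ k → A * A = 0

section step

variable {V : Type} [AddCommGroup V] [Module R V]

/-- the letters after one more site -/
noncomputable def anew (k : ℕ) (a : ℕ → Module.End R V) (A : Module.End R V) (ty : Bool)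
    (t : R) (j : ℕ) : Module.End R (V × V) :=
  if j < k then B (a j) 0 0 (a j)
  else if j = k then B (a k) 0 A (a k)
  else if j = k + 1 then (if ty then B 0 0 0 (t • 1) else B (t • 1) 0 0 0)
  else 0

/-- values after one more site -/
def xnew (k : ℕ) (x : ℕ → R) (t : R) (j : ℕ) : R := if j = k + 1 then t else x j

/-- types after one more site -/
def enew (k : ℕ) (e : ℕ → Bool) (ty : Bool) (j : ℕ) : Bool := if j = k + 1 then ty else e j

variable (k : ℕ) (a : ℕ → Module.End R V) (A : Module.End R V) (ty : Bool) (t : R)
  (x : ℕ → R) (e : ℕ → Bool)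

lemma anew_lt {j : ℕ} (h : j < k) : anew k a A ty t j = B (a j) 0 0 (a j) := by
  simp [anew, h]

lemma anew_k : anew k a A ty t k = B (a k) 0 A (a k) := by
  simp [anew]

lemma anew_k1 : anew k a A ty t (k + 1)
    = if ty then B 0 0 0 (t • 1) else B (t • 1) 0 0 0 := by
  simp [anew]

lemma xnew_le {j : ℕ} (h : j ≤ k) : xnew k x t j = x j := by
  simp [xnew, show j ≠ k + 1 by omega]

lemma xnew_k1 : xnew k x t (k + 1) = t := by simp [xnew]

lemma enew_le {j : ℕ} (h : j ≤ k) : enew k e ty j = e j := by
  simp [enew, show j ≠ k + 1 by omega]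

lemma enew_k1 : enew k e ty (k + 1) = ty := by simp [enew]

theorem isPend_new (ha : IsLet k a x e) (hA : IsPend k a A x e) (hk : k = 0 → a 0 = 0) :
    IsPend (k + 1) (anew k a A ty t) (hop : Module.End R (V × V)) (xnew k x t)
      (enew k e ty) := by
  refine ⟨?_, ?_, ?_, ?_, ?_, ?_⟩
  · intro l hl hlk
    obtain rfl : l = k := by omega
    rw [anew_k, hop_eq_B, xnew_le _ _ _ le_rfl, enew_le _ _ _ le_rfl]
    have h4 := hA.f4
    have h4' := hA.f4'
    have h5 := hA.f5 hl
    have hs := ha.sq l le_rfl
    cases he : e l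
    · rw [he] at h4 h4'
      simp only [Bool.false_eq_true, if_false] at h4 h4' ⊢
      simp only [B_mul, B_smul, mul_zero, zero_mul, add_zero, zero_add, mul_one, one_mul,
        h4, h4', h5, hs, smul_zero]
    · rw [he] at h4 h4'
      simp only [if_true] at h4 h4' ⊢
      simp only [B_mul, B_smul, mul_zero, zero_mul, add_zero, zero_add, mul_one, one_mul,
        h4, h4', h5, hs, smul_zero]
  · intro l hlk
    obtain rfl : l = k := by omega
    rw [anew_k, anew_k1, hop_eq_B, xnew_k1, enew_k1]
    cases ty
    · simp only [Bool.false_eq_true, if_false, B_mul, B_add, B_smul, mul_zero, zero_mul,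
        add_zero, zero_add, mul_one, one_mul, smul_zero, mul_smul_comm, smul_mul_assoc]
    · simp only [if_true, B_mul, B_add, B_smul, mul_zero, zero_mul, add_zero, zero_add, mul_one,
        one_mul, smul_zero, mul_smul_comm, smul_mul_assoc]
  · intro i hi
    rw [anew_lt _ _ _ _ _ (by omega), hop_eq_B]
    simp only [B_mul, mul_zero, zero_mul, add_zero, zero_add, mul_one, one_mul]
  · rw [anew_k1, hop_eq_B, xnew_k1, enew_k1]
    cases ty
    · simp only [Bool.false_eq_true, if_false, B_mul, B_smul, mul_zero, zero_mul, add_zero,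
        zero_add, mul_one, one_mul, smul_zero]
    · simp only [if_true, B_mul, mul_zero, zero_mul, add_zero, B_zero]
  · rw [anew_k1, hop_eq_B, xnew_k1, enew_k1]
    cases ty
    · simp only [Bool.false_eq_true, if_false, B_mul, mul_zero, zero_mul, add_zero,
        zero_add, mul_one, one_mul, smul_zero, B_zero]
    · simp only [if_true, B_mul, B_smul, mul_zero, zero_mul, add_zero, zero_add, mul_one,
        one_mul, smul_zero]
  · intro _
    rw [hop_eq_B]
    simp only [B_mul, mul_zero, zero_mul, add_zero, B_zero]

theorem isLet_new (ha : IsLet k a x e) (hA : IsPend k a A x e) :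
    IsLet (k + 1) (anew k a A ty t) (xnew k x t) (enew k e ty) := by
  have hAd : A * a k + a k * A = x k • A := by
    have h4 := hA.f4
    have h4' := hA.f4'
    cases he : e k
    · rw [he] at h4 h4'
      simp only [Bool.false_eq_true, if_false] at h4 h4'
      rw [h4, h4', zero_add]
    · rw [he] at h4 h4'
      simp only [if_true] at h4 h4'
      rw [h4, h4', add_zero]
  refine ⟨?_, ?_, ?_, ?_, ?_⟩
  · rw [xnew_le _ _ _ (Nat.zero_le _)]
    exact ha.x0
  · intro j hj
    rcases lt_trichotomy j k with h | h | h
    · rw [anew_lt _ _ _ _ _ h, xnew_le _ _ _ h.le]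
      simp only [B_mul, B_smul, mul_zero, zero_mul, add_zero, zero_add, smul_zero,
        ha.sq j h.le]
    · subst h
      rw [anew_k, xnew_le _ _ _ le_rfl]
      simp only [B_mul, B_smul, mul_zero, zero_mul, add_zero, zero_add, smul_zero,
        ha.sq j le_rfl, hAd]
    · obtain rfl : j = k + 1 := by omega
      rw [anew_k1, xnew_k1]
      cases ty
      · simp only [Bool.false_eq_true, if_false, B_mul, B_smul, mul_zero, zero_mul, add_zero,
          zero_add, smul_zero, mul_smul_comm, smul_mul_assoc, mul_one]
      · simp only [if_true, B_mul, B_smul, mul_zero, zero_mul, add_zero,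
          zero_add, smul_zero, mul_smul_comm, smul_mul_assoc, mul_one]
  · intro i j hij hj
    rcases lt_trichotomy j k with h | h | h
    · rw [anew_lt _ _ _ _ _ h, anew_lt _ _ _ _ _ (by omega)]
      simp only [B_mul, mul_zero, zero_mul, add_zero, zero_add, ha.far i j hij h.le]
    · subst h
      rw [anew_k, anew_lt _ _ _ _ _ (by omega)]
      simp only [B_mul, mul_zero, zero_mul, add_zero, zero_add, ha.far i j hij le_rfl,
        hA.f3 i hij]
    · obtain rfl : j = k + 1 := by omega
      rw [anew_k1, anew_lt _ _ _ _ _ (by omega)]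
      cases ty
      · simp only [Bool.false_eq_true, if_false, B_mul, mul_zero, zero_mul, add_zero, zero_add,
          mul_smul_comm, smul_mul_assoc, mul_one, one_mul, smul_zero]
      · simp only [if_true, B_mul, mul_zero, zero_mul, add_zero, zero_add,
          mul_smul_comm, smul_mul_assoc, mul_one, one_mul, smul_zero]
  · intro j hj
    rcases lt_trichotomy (j + 1) k with h | h | h
    · rw [anew_lt _ _ _ _ _ h, anew_lt _ _ _ _ _ (by omega), xnew_le _ _ _ h.le,
        enew_le _ _ _ h.le]
      have hu := ha.up j h.le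
      cases he : e (j + 1)
      · rw [he] at hu
        simp only [Bool.false_eq_true, if_false] at hu ⊢
        simp only [B_mul, B_smul, mul_zero, zero_mul, add_zero, zero_add, smul_zero, hu]
      · rw [he] at hu
        simp only [if_true] at hu ⊢
        simp only [B_mul, B_smul, mul_zero, zero_mul, add_zero, zero_add, smul_zero, hu]
    · subst h
      rw [anew_k, anew_lt _ _ _ _ _ (by omega), xnew_le _ _ _ le_rfl, enew_le _ _ _ le_rfl]
      have hu := ha.up j le_rfl
      have h2 := hA.f2 j rfl
      cases he : e (j + 1)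
      · rw [he] at hu h2
        simp only [Bool.false_eq_true, if_false] at hu h2 ⊢
        simp only [B_mul, B_smul, mul_zero, zero_mul, add_zero, zero_add, smul_zero, hu, h2]
      · rw [he] at hu h2
        simp only [if_true] at hu h2 ⊢
        simp only [B_mul, B_smul, mul_zero, zero_mul, add_zero, zero_add, smul_zero, hu, h2]
    · obtain rfl : j = k := by omega
      rw [anew_k, anew_k1, xnew_k1, enew_k1]
      cases ty
      · simp only [Bool.false_eq_true, if_false, B_mul, B_smul, mul_zero, zero_mul, add_zero,
          zero_add, smul_zero, mul_smul_comm, smul_mul_assoc, mul_one, one_mul]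
      · simp only [if_true, B_mul, B_smul, mul_zero, zero_mul, add_zero,
          zero_add, smul_zero, mul_smul_comm, smul_mul_assoc, mul_one, one_mul]
  · intro i hi1 hi
    rcases lt_trichotomy (i + 1) k with h | h | h
    · rw [anew_lt _ _ _ _ _ h, anew_lt _ _ _ _ _ (by omega), xnew_le _ _ _ (by omega),
        enew_le _ _ _ (by omega)]
      have hu := ha.dn i hi1 h.le
      cases he : e i
      · rw [he] at hu
        simp only [Bool.false_eq_true, if_false] at hu ⊢
        simp only [B_mul, B_smul, mul_zero, zero_mul, add_zero, zero_add, smul_zero, hu]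
      · rw [he] at hu
        simp only [if_true] at hu ⊢
        simp only [B_mul, B_smul, mul_zero, zero_mul, add_zero, zero_add, smul_zero, hu]
    · subst h
      rw [anew_k, anew_lt _ _ _ _ _ (by omega), xnew_le _ _ _ (by omega),
        enew_le _ _ _ (by omega)]
      have hu := ha.dn i hi1 le_rfl
      have h1 := hA.f1 i hi1 rfl
      cases he : e i
      · rw [he] at hu h1
        simp only [Bool.false_eq_true, if_false] at hu h1 ⊢
        simp only [B_mul, B_smul, mul_zero, zero_mul, add_zero, zero_add, smul_zero, hu, h1]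
      · rw [he] at hu h1
        simp only [if_true] at hu h1 ⊢
        simp only [B_mul, B_smul, mul_zero, zero_mul, add_zero, zero_add, smul_zero, hu, h1]
    · obtain rfl : i = k := by omega
      rw [anew_k, anew_k1, xnew_le _ _ _ le_rfl, enew_le _ _ _ le_rfl]
      have hs := ha.sq i le_rfl
      have h4 := hA.f4
      have h4' := hA.f4'
      cases he : e i <;> cases ty <;> rw [he] at h4 h4' <;>
        simp only [Bool.false_eq_true, if_false, if_true] at h4 h4' ⊢ <;>
        simp only [B_mul, B_smul, mul_zero, zero_mul, add_zero, zero_add, smul_zero,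
          mul_smul_comm, smul_mul_assoc, mul_one, one_mul, hs, h4, h4', smul_smul,
          mul_comm t (x i)]

end step

end Pool.Agent.H35.Tw
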