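import Pool.Agent.H35.Tw.Dic

/-!
The relations of the letters on the finite sets of sites.
-/

set_option linter.unusedSimpArgs false

namespace Pool.Agent.H35.Tw

open Finset

variable {R : Type} [Field R]

/-- operators -/
abbrev OpR (R : Type) [Field R] := Module.End R (Finset ℕ → R)

/-- hop, as an element of the ring -/
def rH (j : ℕ) : OpR R := opH j

/-- diagonal, as an element of the ring -/
def rN (y : ℕ → R) (pos : ℕ → Bool) (j : ℕ) : OpR R := opN y pos j

/-- creation, as an element of the ring -/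
def rC : OpR R := opC

lemma rC_app (f : Finset ℕ → R) (v : Finset ℕ) :
    (rC : OpR R) f v = if 0 ∈ v then f (v.erase 0) else 0 := rfl

lemma rH_app (j : ℕ) (f : Finset ℕ → R) (v : Finset ℕ) :
    (rH j : OpR R) f v = if j + 1 ∈ v ∧ j ∉ v then f (insert j (v.erase (j + 1))) else 0 := rfl

lemma rN_app (y : ℕ → R) (pos : ℕ → Bool) (j : ℕ) (f : Finset ℕ → R) (v : Finset ℕ) :
    (rN y pos j : OpR R) f v = if decide (j ∈ v) = pos j then y j * f v else 0 := rfl

lemma op_ext {S T : OpR R} (h : ∀ f v, S f v = T f v) : S = T :=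
  LinearMap.ext fun f => funext fun v => h f v

lemma HH (j : ℕ) : (rH j : OpR R) * rH j = 0 := by
  apply op_ext
  intro f v
  simp [Module.End.mul_apply, rH_app]

lemma CC : (rC : OpR R) * rC = 0 := by
  apply op_ext
  intro f v
  simp [Module.End.mul_apply, rC_app]

lemma NN (y : ℕ → R) (pos : ℕ → Bool) (j : ℕ) :
    (rN y pos j : OpR R) * rN y pos j = y j • rN y pos j := by
  apply op_ext
  intro f v
  simp only [Module.End.mul_apply, rN_app, LinearMap.smul_apply, Pi.smul_apply, smul_eq_mul]
  split_ifs <;> simp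

lemma N_comm (y : ℕ → R) (pos : ℕ → Bool) (i j : ℕ) :
    (rN y pos i : OpR R) * rN y pos j = rN y pos j * rN y pos i := by
  apply op_ext
  intro f v
  simp only [Module.End.mul_apply, rN_app]
  split_ifs <;> simp [mul_left_comm]

lemma NH_self (y : ℕ → R) (pos : ℕ → Bool) (j : ℕ) :
    (rN y pos j : OpR R) * rH j = if pos j then 0 else y j • rH j := by
  apply op_ext
  intro f v
  cases hp : pos j <;> by_cases h1 : j ∈ v <;> by_cases h2 : j + 1 ∈ v <;>
    simp [Module.End.mul_apply, rN_app, rH_app, hp, h1, h2]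

lemma HN_self (y : ℕ → R) (pos : ℕ → Bool) (j : ℕ) :
    (rH j : OpR R) * rN y pos j = if pos j then y j • rH j else 0 := by
  apply op_ext
  intro f v
  cases hp : pos j <;> by_cases h1 : j ∈ v <;> by_cases h2 : j + 1 ∈ v <;>
    simp [Module.End.mul_apply, rN_app, rH_app, hp, h1, h2]

lemma NH_up (y : ℕ → R) (pos : ℕ → Bool) (j : ℕ) :
    (rN y pos (j + 1) : OpR R) * rH j = if pos (j + 1) then y (j + 1) • rH j else 0 := by
  apply op_ext
  intro f v
  cases hp : pos (j + 1) <;> by_cases h1 : j ∈ v <;> by_cases h2 : j + 1 ∈ v <;>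
    simp [Module.End.mul_apply, rN_app, rH_app, hp, h1, h2]

lemma HN_up (y : ℕ → R) (pos : ℕ → Bool) (j : ℕ) :
    (rH j : OpR R) * rN y pos (j + 1) = if pos (j + 1) then 0 else y (j + 1) • rH j := by
  apply op_ext
  intro f v
  cases hp : pos (j + 1) <;> by_cases h1 : j ∈ v <;> by_cases h2 : j + 1 ∈ v <;>
    simp [Module.End.mul_apply, rN_app, rH_app, hp, h1, h2]

lemma NC (y : ℕ → R) (pos : ℕ → Bool) :
    (rN y pos 0 : OpR R) * rC = if pos 0 then y 0 • rC else 0 := by
  apply op_ext
  intro f v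
  cases hp : pos 0 <;> by_cases h1 : 0 ∈ v <;>
    simp [Module.End.mul_apply, rN_app, rC_app, hp, h1]

lemma CN (y : ℕ → R) (pos : ℕ → Bool) :
    (rC : OpR R) * rN y pos 0 = if pos 0 then 0 else y 0 • rC := by
  apply op_ext
  intro f v
  cases hp : pos 0 <;> by_cases h1 : 0 ∈ v <;>
    simp [Module.End.mul_apply, rN_app, rC_app, hp, h1]

lemma HN_far (y : ℕ → R) (pos : ℕ → Bool) (i j : ℕ) (h1 : i ≠ j) (h2 : i ≠ j + 1) :
    (rH j : OpR R) * rN y pos i = rN y pos i * rH j := by
  apply op_ext
  intro f v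
  have hm : i ∈ insert j (v.erase (j + 1)) ↔ i ∈ v := by
    rw [mem_insert, mem_erase]
    tauto
  simp only [Module.End.mul_apply, rN_app, rH_app, hm]
  split_ifs <;> simp

lemma CN_far (y : ℕ → R) (pos : ℕ → Bool) (i : ℕ) (h1 : i ≠ 0) :
    (rC : OpR R) * rN y pos i = rN y pos i * rC := by
  apply op_ext
  intro f v
  have hm : i ∈ v.erase 0 ↔ i ∈ v := by
    rw [mem_erase]
    tauto
  simp only [Module.End.mul_apply, rN_app, rC_app, hm]
  split_ifs <;> simp

lemma HH_far (i j : ℕ) (h : i + 2 ≤ j) : (rH i : OpR R) * rH j = rH j * rH i := by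
  apply op_ext
  intro f v
  have m1 : j + 1 ∈ insert i (v.erase (i + 1)) ↔ j + 1 ∈ v := by
    rw [mem_insert, mem_erase]
    constructor
    · rintro (h' | h')
      · omega
      · exact h'.2
    · exact fun h' => Or.inr ⟨by omega, h'⟩
  have m2 : j ∈ insert i (v.erase (i + 1)) ↔ j ∈ v := by
    rw [mem_insert, mem_erase]
    constructor
    · rintro (h' | h')
      · omega
      · exact h'.2
    · exact fun h' => Or.inr ⟨by omega, h'⟩
  have m3 : i + 1 ∈ insert j (v.erase (j + 1)) ↔ i + 1 ∈ v := by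
    rw [mem_insert, mem_erase]
    constructor
    · rintro (h' | h')
      · omega
      · exact h'.2
    · exact fun h' => Or.inr ⟨by omega, h'⟩
  have m4 : i ∈ insert j (v.erase (j + 1)) ↔ i ∈ v := by
    rw [mem_insert, mem_erase]
    constructor
    · rintro (h' | h')
      · omega
      · exact h'.2
    · exact fun h' => Or.inr ⟨by omega, h'⟩
  simp only [Module.End.mul_apply, rH_app, m1, m2, m3, m4]
  have hs : insert j ((insert i (v.erase (i + 1))).erase (j + 1))
      = insert i ((insert j (v.erase (j + 1))).erase (i + 1)) := by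
    ext a
    simp only [mem_insert, mem_erase]
    by_cases ha : a ∈ v
    · simp only [ha, and_true]; omega
    · simp only [ha, and_false, or_false]; omega
  rw [hs]
  split_ifs <;> rfl

lemma CH_far (j : ℕ) (h : 1 ≤ j) : (rC : OpR R) * rH j = rH j * rC := by
  apply op_ext
  intro f v
  have m1 : j + 1 ∈ v.erase 0 ↔ j + 1 ∈ v := by
    rw [mem_erase]
    exact ⟨fun h => h.2, fun h => ⟨by omega, h⟩⟩
  have m2 : j ∈ v.erase 0 ↔ j ∈ v := by
    rw [mem_erase]
    exact ⟨fun h => h.2, fun h' => ⟨by omega, h'⟩⟩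
  have m3 : 0 ∈ insert j (v.erase (j + 1)) ↔ 0 ∈ v := by
    rw [mem_insert, mem_erase]
    constructor
    · rintro (h' | h')
      · omega
      · exact h'.2
    · exact fun h' => Or.inr ⟨by omega, h'⟩
  simp only [Module.End.mul_apply, rH_app, rC_app, m1, m2, m3]
  have hs : insert j ((v.erase 0).erase (j + 1)) = (insert j (v.erase (j + 1))).erase 0 := by
    ext a
    simp only [mem_insert, mem_erase]
    by_cases ha : a ∈ v
    · simp only [ha, and_true]; omega
    · simp only [ha, and_false, or_false]; omega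
  rw [hs]
  split_ifs <;> rfl

lemma HHH_dn (j : ℕ) : (rH j : OpR R) * rH (j + 1) * rH j = 0 := by
  apply op_ext
  intro f v
  simp only [Module.End.mul_apply, rH_app]
  by_cases h : j + 1 ∈ v ∧ j ∉ v
  · rw [if_pos h]
    by_cases h' : j + 1 + 1 ∈ insert j (v.erase (j + 1)) ∧
        j + 1 ∉ insert j (v.erase (j + 1))
    · rw [if_pos h']
      have hn : ¬ (j + 1 ∈ insert (j + 1) ((insert j (v.erase (j + 1))).erase (j + 1 + 1)) ∧
          j ∉ insert (j + 1) ((insert j (v.erase (j + 1))).erase (j + 1 + 1))) := by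
        rintro ⟨_, h2⟩
        apply h2
        rw [mem_insert, mem_erase, mem_insert]
        right
        exact ⟨by omega, Or.inl rfl⟩
      rw [if_neg hn]
      rfl
    · rw [if_neg h']
      rfl
  · rw [if_neg h]
    rfl

lemma HHH_up (j : ℕ) : (rH (j + 1) : OpR R) * rH j * rH (j + 1) = 0 := by
  apply op_ext
  intro f v
  simp only [Module.End.mul_apply, rH_app]
  by_cases h : j + 1 + 1 ∈ v ∧ j + 1 ∉ v
  · rw [if_pos h]
    by_cases h' : j + 1 ∈ insert (j + 1) (v.erase (j + 1 + 1)) ∧
        j ∉ insert (j + 1) (v.erase (j + 1 + 1))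
    · rw [if_pos h']
      have hn : ¬ (j + 1 + 1 ∈ insert j ((insert (j + 1) (v.erase (j + 1 + 1))).erase (j + 1)) ∧
          j + 1 ∉ insert j ((insert (j + 1) (v.erase (j + 1 + 1))).erase (j + 1))) := by
        rintro ⟨h2, _⟩
        rw [mem_insert, mem_erase, mem_insert, mem_erase] at h2
        rcases h2 with h2 | h2
        · omega
        · rcases h2.2 with h3 | h3
          · omega
          · exact h3.1 rfl
      rw [if_neg hn]
      rfl
    · rw [if_neg h']
      rfl
  · rw [if_neg h]
    rfl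

lemma HCH : (rH 0 : OpR R) * rC * rH 0 = 0 := by
  apply op_ext
  intro f v
  simp only [Module.End.mul_apply, rH_app, rC_app]
  by_cases h : 0 + 1 ∈ v ∧ 0 ∉ v
  · rw [if_pos h]
    simp
  · rw [if_neg h]
    rfl

section abs

variable {S : Type} [Ring S] [Algebra R S]

lemma abs_sq (H N : S) (t : R) (b : Bool) (hH : H * H = 0) (hN : N * N = t • N)
    (hNH : N * H = if b then 0 else t • H) (hHN : H * N = if b then t • H else 0) :
    (H + N) * (H + N) = t • (H + N) := by
  rw [mul_add, add_mul, add_mul, hH, hN, hNH, hHN]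
  cases b <;> simp [smul_add]

lemma abs_dn (H N H' N' : S) (t t' : R) (b b' : Bool) (hH : H * H = 0) (hN : N * N = t • N)
    (hNH : N * H = if b then 0 else t • H) (hHN : H * N = if b then t • H else 0)
    (c1 : H' * N = N * H') (c2 : N' * N = N * N')
    (u1 : N' * H = if b' then t' • H else 0)
    (h3 : H * H' * H = 0) :
    (H + N) * (H' + N') * (H + N)
      = t • (if b then (H + N) * (H' + N') else (H' + N') * (H + N)) := by
  have e : (H + N) * (H' + N') * (H + N)
      = H * H' * H + (H * (H' * N)) + H * (N' * H) + H * (N' * N)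
        + (N * H') * H + (N * (H' * N)) + (N * N') * H + N * (N' * N) := by noncomm_ring
  have f1 : H * (N' * H) = 0 := by
    rw [u1]; cases b' <;> simp [hH]
  rw [e, h3, c1, f1, c2, ← c1, ← c2, mul_assoc H' N H, mul_assoc N' N H, hNH]
  rw [c1, c2, ← mul_assoc H N H', ← mul_assoc H N N', ← mul_assoc N N H', ← mul_assoc N N N',
    hHN, hN]
  cases b
  · simp only [Bool.false_eq_true, if_false, zero_mul, add_zero, zero_add, smul_mul_assoc,
      mul_smul_comm, mul_add, add_mul, c1, c2, smul_add]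
    abel
  · simp only [if_true, mul_zero, add_zero, zero_add, smul_mul_assoc,
      mul_smul_comm, mul_add, add_mul, smul_add]
    abel

lemma abs_up (H N H' N' : S) (t' : R) (b' : Bool) (hH' : H' * H' = 0)
    (hN' : N' * N' = t' • N')
    (hNH' : N' * H' = if b' then 0 else t' • H') (hHN' : H' * N' = if b' then t' • H' else 0)
    (c1 : H' * N = N * H') (c2 : N' * N = N * N')
    (u1 : N' * H = if b' then t' • H else 0) (u2 : H * N' = if b' then 0 else t' • H)
    (h3 : H' * H * H' = 0) :
    (H' + N') * (H + N) * (H' + N')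
      = t' • (if b' then (H + N) * (H' + N') else (H' + N') * (H + N)) := by
  have e : (H' + N') * (H + N) * (H' + N')
      = H' * H * H' + H' * (H * N') + (H' * N) * H' + (H' * N) * N'
        + (N' * H) * H' + N' * (H * N') + (N' * N) * H' + (N' * N) * N' := by noncomm_ring
  rw [e, h3, c1, c2, mul_assoc N H' H', mul_assoc N H' N', mul_assoc N N' H', mul_assoc N N' N',
    hH', hHN', hNH', hN', u1, u2]
  cases b'
  · simp only [Bool.false_eq_true, if_false, mul_zero, zero_mul, add_zero, zero_add,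
      smul_mul_assoc, mul_smul_comm, mul_add, add_mul, smul_add, c1, c2] at u1 ⊢
    rw [u1]
    simp only [smul_zero, add_zero]
    abel
  · simp only [if_true, mul_zero, zero_mul, add_zero, zero_add,
      smul_mul_assoc, mul_smul_comm, mul_add, add_mul, smul_add] at u2 ⊢
    rw [u2]
    simp only [smul_zero, add_zero]
    abel

end abs

/-- the letters as elements of the ring of operators -/
def rL (y : ℕ → R) (pos : ℕ → Bool) : ℕ → OpR R
  | 0 => rC
  | j + 1 => rH j + rN y pos j

theorem rL_zero_sq (y : ℕ → R) (pos : ℕ → Bool) : rL y pos 0 * rL y pos 0 = 0 := CC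

theorem rL_sq (y : ℕ → R) (pos : ℕ → Bool) (j : ℕ) :
    rL y pos (j + 1) * rL y pos (j + 1) = y j • rL y pos (j + 1) :=
  abs_sq _ _ _ (pos j) (HH j) (NN y pos j) (NH_self y pos j) (HN_self y pos j)

theorem rL_far (y : ℕ → R) (pos : ℕ → Bool) (i j : ℕ) (h : i + 2 ≤ j) :
    rL y pos i * rL y pos j = rL y pos j * rL y pos i := by
  obtain ⟨j, rfl⟩ : ∃ j', j = j' + 1 := ⟨j - 1, by omega⟩
  cases i with
  | zero =>
    simp only [rL, mul_add, add_mul]
    rw [CH_far j (by omega), CN_far y pos j (by omega)]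
  | succ i =>
    simp only [rL, mul_add, add_mul]
    rw [HH_far i j (by omega), HN_far y pos j i (by omega) (by omega),
      ← HN_far y pos i j (by omega) (by omega), N_comm y pos i j]
    abel

theorem rL_dn (y : ℕ → R) (pos : ℕ → Bool) (j : ℕ) :
    rL y pos (j + 1) * rL y pos (j + 2) * rL y pos (j + 1)
      = y j • (if pos j then rL y pos (j + 1) * rL y pos (j + 2)
        else rL y pos (j + 2) * rL y pos (j + 1)) :=
  abs_dn _ _ _ _ _ (y (j + 1)) (pos j) (pos (j + 1)) (HH j) (NN y pos j) (NH_self y pos j)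
    (HN_self y pos j) (HN_far y pos j (j + 1) (by omega) (by omega)) (N_comm y pos (j + 1) j)
    (NH_up y pos j) (HHH_dn j)

theorem rL_up (y : ℕ → R) (pos : ℕ → Bool) (j : ℕ) :
    rL y pos (j + 2) * rL y pos (j + 1) * rL y pos (j + 2)
      = y (j + 1) • (if pos (j + 1) then rL y pos (j + 1) * rL y pos (j + 2)
        else rL y pos (j + 2) * rL y pos (j + 1)) :=
  abs_up _ _ _ _ _ (pos (j + 1)) (HH (j + 1)) (NN y pos (j + 1)) (NH_self y pos (j + 1))
    (HN_self y pos (j + 1)) (HN_far y pos j (j + 1) (by omega) (by omega))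
    (N_comm y pos (j + 1) j) (NH_up y pos j) (HN_up y pos j) (HHH_up j)

theorem rL_up_zero (y : ℕ → R) (pos : ℕ → Bool) :
    rL y pos 1 * rL y pos 0 * rL y pos 1
      = y 0 • (if pos 0 then rL y pos 0 * rL y pos 1 else rL y pos 1 * rL y pos 0) := by
  have h := abs_up (R := R) (rC : OpR R) 0 (rH 0) (rN y pos 0) (y 0) (pos 0) (HH 0)
    (NN y pos 0) (NH_self y pos 0) (HN_self y pos 0) (by simp) (by simp) (NC y pos)
    (CN y pos) HCH
  simpa [rL] using h

end Pool.Agent.H35.Tw
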