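import Pool.Agent.H35.Tw.Block

/-!
Windows: the weighted sum over all words, and its recursion.
-/

namespace Pool.Agent.H35.Tw

open Polynomial

/-- a Fock space with step operator, pending hop, final covector and initial vector -/
structure Sys (R : Type) [Field R] where
  V : Type
  [ac : AddCommGroup V]
  [md : Module R V]
  D : V →ₗ[R] V
  A : V →ₗ[R] V
  phi : V →ₗ[R] R
  u : V

attribute [instance] Sys.ac Sys.md

variable {R : Type} [Field R]

/-- no site -/
def Sys.base (R : Type) [Field R] : Sys R :=
  { V := R, D := 0, A := LinearMap.id, phi := LinearMap.id, u := 1 }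

/-- one more site with node `t`, empty (`false`) or full (`true`) at the start and at the end -/
def Sys.add (s : Sys R) (full : Bool) (t : R) : Sys R :=
  { V := s.V × s.V
    D := ext s.D s.A t
    A := hop
    phi := if full then s.phi ∘ₗ LinearMap.snd R s.V s.V else s.phi ∘ₗ LinearMap.fst R s.V s.V
    u := if full then (0, s.u) else (s.u, 0) }

/-- the matrix element with two more sites, empty at the start and full at the end -/
noncomputable def Sys.M (s : Sys R) (a b : R) (g : R[X]) : R := m2 s.D s.A s.phi s.u a b g

/-- the sum over three roots -/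
noncomputable def tri (F : R → R → R → R) (a b c : R) : R :=
  F b c a / ((a - b) * (a - c)) + F a c b / ((b - a) * (b - c)) + F a b c / ((c - a) * (c - b))

theorem Sys.M_symm (s : Sys R) (a b : R) (g : R[X]) : s.M a b g = s.M b a g :=
  m2_symm _ _ _ _ _ _ _

theorem Sys.M_add_false (s : Sys R) (t a b : R) (g : R[X]) (h1 : t ≠ a) (h2 : t ≠ b)
    (h3 : a ≠ b) : (s.add false t).M a b g = tri (fun y z _ => s.M y z g) t a b := by
  have h := stepA s.D s.A s.phi s.u t a b g h1 h2 h3
  have e : (s.add false t).M a b g
      = s.phi (aeval (ext3 s.D s.A t a b) g (st3 (s.u, 0))).2.2.1 := rfl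
  rw [e, h]
  rfl

theorem Sys.M_add_true (s : Sys R) (t a b : R) (g : R[X]) (h1 : t ≠ a) (h2 : t ≠ b)
    (h3 : a ≠ b) :
    (s.add true t).M a b g = tri (fun y z w => s.M y z (g.comp (X + C w))) t a b := by
  have h := stepB s.D s.A s.phi s.u t a b g h1 h2 h3
  have e : (s.add true t).M a b g
      = s.phi (aeval (ext3 s.D s.A t a b) g (st3 (0, s.u))).2.2.2 := rfl
  rw [e, h]
  rfl

/-- the system of a word over the window `[b, b + length)`; letters from the outermost one -/
noncomputable def wsys (x : ℕ → R) : List Bool → ℕ → Sys R
  | [], _ => Sys.base R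
  | false :: w, b => (wsys x w b).add false (x (b + w.length))
  | true :: w, b => (wsys x w (b + 1)).add true (-(x b))

/-- sum of the absolute values of the negative nodes of a word -/
noncomputable def wneg (x : ℕ → R) : List Bool → ℕ → R
  | [], _ => 0
  | false :: w, b => wneg x w b
  | true :: w, b => x b + wneg x w (b + 1)

/-- exponent of `q`: sum of `s + 1` over the sites that are empty -/
def wexp : List Bool → ℕ
  | [] => 0
  | false :: w => (w.length + 1) + wexp w
  | true :: w => wexp w

/-- all words of length `m` -/
def words : ℕ → List (List Bool)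
  | 0 => [[]]
  | m + 1 => (words m).map (fun w => false :: w) ++ (words m).map (fun w => true :: w)

lemma length_of_mem_words {m : ℕ} {w : List Bool} (h : w ∈ words m) : w.length = m := by
  induction m generalizing w with
  | zero => simp [words] at h; simp [h]
  | succ m ih =>
    simp only [words, List.mem_append, List.mem_map] at h
    rcases h with ⟨v, hv, rfl⟩ | ⟨v, hv, rfl⟩ <;> simp [ih hv]

/-- the weighted sum over all words of length `m` in the window `[b, b + m)` -/
noncomputable def W (q : R) (x : ℕ → R) (m b : ℕ) (y z : R) (g : R[X]) : R :=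
  ((words m).map (fun w => q ^ wexp w *
    (wsys x w b).M y z (g.comp (X + C (wneg x w b))))).sum

lemma sum_map_tri {ι : Type*} (l : List ι) (c : ι → R) (F : ι → R → R → R → R) (a b d : R) :
    (l.map (fun i => c i * tri (F i) a b d)).sum
      = tri (fun y z w => (l.map (fun i => c i * F i y z w)).sum) a b d := by
  induction l with
  | nil => simp [tri]
  | cons i l ih =>
    simp only [List.map_cons, List.sum_cons, ih]
    simp only [tri]
    ring

theorem W_succ (q : R) (x : ℕ → R) (m b : ℕ) (y z : R) (g : R[X]) (hyz : y ≠ z)
    (h1 : x (b + m) ≠ y) (h2 : x (b + m) ≠ z) (h3 : -(x b) ≠ y) (h4 : -(x b) ≠ z) :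
    W q x (m + 1) b y z g
      = q ^ (m + 1) * tri (fun y z _ => W q x m b y z g) (x (b + m)) y z
        + tri (fun y z w => W q x m (b + 1) y z (g.comp (X + C (w + x b)))) (-(x b)) y z := by
  unfold W
  rw [words, List.map_append, List.sum_append, List.map_map, List.map_map]
  congr 1
  · rw [← sum_map_tri]
    rw [← List.sum_map_mul_left]
    congr 1
    apply List.map_congr_left
    intro w hw
    have hl := length_of_mem_words hw
    simp only [Function.comp_apply, wexp, wneg, wsys, hl]
    rw [Sys.M_add_false _ _ _ _ _ h1 h2 hyz]
    ring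
  · rw [← sum_map_tri]
    congr 1
    apply List.map_congr_left
    intro w hw
    simp only [Function.comp_apply, wexp, wneg, wsys]
    rw [Sys.M_add_true _ _ _ _ _ h3 h4 hyz]
    congr 2
    funext y z w'
    congr 1
    rw [Polynomial.comp_assoc, Polynomial.comp_assoc]
    congr 1
    simp only [add_comp, X_comp, C_comp, map_add]
    ring

theorem W_zero (q : R) (x : ℕ → R) (b : ℕ) (y z : R) (g : R[X]) :
    W q x 0 b y z g = (Sys.base R).M y z g := by
  simp [W, words, wexp, wneg, wsys]

end Pool.Agent.H35.Tw
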